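import Mathlib
import Pool.Agent.W277.UB.Pl

/-!
# The valuation ring and the residue field of a place
-/

namespace Pool.Agent.W277.UF

open Finset Polynomial Pool.Agent.W277.UB PlaceData

variable {k K : Type*} [Field k] [Field K] [Algebra k K]

/-- The valuation ring of a place. -/
def VR (Q : PlaceData k K) (v : Q.Pl) : ValuationSubring K where
  carrier := {x | Q.G v 0 x}
  mul_mem' := by
    intro a b ha hb
    have h := G_mul ha hb
    rwa [add_zero] at h
  one_mem' := G_one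
  add_mem' := fun ha hb => G_add ha hb
  zero_mem' := G_zero
  neg_mem' := fun ha => G_neg ha
  mem_or_inv_mem' := by
    intro x
    by_cases hx : x = 0
    · left
      rw [hx]
      exact G_zero
    · rcases le_total 0 (Q.ord v x) with h | h
      · exact Or.inl fun _ => h
      · refine Or.inr fun _ => ?_
        rw [ord_inv hx]
        linarith

variable {Q : PlaceData k K} {v : Q.Pl}

lemma mem_VR {x : K} : x ∈ VR Q v ↔ Q.G v 0 x := Iff.rfl

/-- The residue field. -/
abbrev RF (Q : PlaceData k K) (v : Q.Pl) : Type _ := IsLocalRing.ResidueField (VR Q v)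

/-- The residue map. -/
noncomputable abbrev rs (Q : PlaceData k K) (v : Q.Pl) : VR Q v →+* RF Q v :=
  IsLocalRing.residue (VR Q v)

lemma rs_eq_zero {x : VR Q v} : rs Q v x = 0 ↔ Q.G v 1 (x : K) := by
  rw [IsLocalRing.residue_eq_zero_iff, IsLocalRing.mem_maximalIdeal, mem_nonunits_iff]
  constructor
  · intro h hx
    by_contra hcon
    push Not at hcon
    have h0 : 0 ≤ Q.ord v (x : K) := x.2 hx
    have h1 : Q.ord v (x : K) = 0 := by omega
    apply h
    have h2 : (x : K)⁻¹ ∈ VR Q v := by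
      rw [mem_VR]
      intro _
      rw [ord_inv hx, h1, neg_zero]
    exact IsUnit.of_mul_eq_one ⟨(x : K)⁻¹, h2⟩ (Subtype.ext (mul_inv_cancel₀ hx))
  · intro h hu
    obtain ⟨y, hy⟩ := hu.exists_right_inv
    have hxy : (x : K) * (y : K) = 1 := congrArg Subtype.val hy
    have hx0 : (x : K) ≠ 0 := left_ne_zero_of_mul_eq_one hxy
    have hy0 : (y : K) ≠ 0 := right_ne_zero_of_mul_eq_one hxy
    have h1 := h hx0
    have h2 : 0 ≤ Q.ord v (y : K) := y.2 hy0
    have h3 := Q.ord_mul v _ _ hx0 hy0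
    rw [hxy, ord_one] at h3
    omega

lemma rs_ne_zero {x : VR Q v} (h : rs Q v x ≠ 0) : (x : K) ≠ 0 ∧ Q.ord v (x : K) = 0 := by
  have hx : (x : K) ≠ 0 := by
    intro hx
    apply h
    rw [rs_eq_zero, hx]
    exact G_zero
  refine ⟨hx, ?_⟩
  by_contra hcon
  apply h
  rw [rs_eq_zero]
  intro _
  have h0 : 0 ≤ Q.ord v (x : K) := x.2 hx
  omega

lemma rs_eq_iff {x y : VR Q v} : rs Q v x = rs Q v y ↔ Q.G v 1 ((x : K) - y) := by
  rw [← sub_eq_zero, ← map_sub, rs_eq_zero]
  rfl

instance charZero_RF [CharZero k] : CharZero (RF Q v) := by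
  apply charZero_of_inj_zero
  intro n hn
  by_contra hn0
  have h1 : rs Q v (n : VR Q v) = 0 := by
    rw [map_natCast]
    exact hn
  rw [rs_eq_zero] at h1
  have hk : (n : k) ≠ 0 := by exact_mod_cast hn0
  have h2 : ((n : VR Q v) : K) = algebraMap k K (n : k) := by
    rw [map_natCast]
    rfl
  rw [h2] at h1
  have h3 := h1 ((_root_.map_ne_zero _).mpr hk)
  rw [Q.ord_alg v _ hk] at h3
  omega

/-- A polynomial with integral coefficients lifts to the valuation ring. -/
lemma exists_lift {p : K[X]} (h : ∀ n, Q.G v 0 (p.coeff n)) :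
    ∃ p0 : (VR Q v)[X], p0.map (algebraMap (VR Q v) K) = p := by
  rw [← Polynomial.mem_lifts, Polynomial.lifts_iff_coeff_lifts]
  exact fun n => ⟨⟨p.coeff n, h n⟩, rfl⟩

lemma G_coeff_map (p0 : (VR Q v)[X]) (n : ℕ) :
    Q.G v 0 ((p0.map (algebraMap (VR Q v) K)).coeff n) := by
  rw [coeff_map]
  exact (p0.coeff n).2

/-- Normalisation of a nonzero polynomial. -/
lemma exists_norm {p : K[X]} (hp : p ≠ 0) :
    ∃ γ : K, γ ≠ 0 ∧ (∀ n, Q.G v (Q.ord v γ) (p.coeff n)) ∧
      ∃ p0 : (VR Q v)[X], C γ * p0.map (algebraMap (VR Q v) K) = p ∧ p0.map (rs Q v) ≠ 0 := by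
  classical
  obtain ⟨i, hi, hmin⟩ := p.support.exists_min_image (fun i => Q.ord v (p.coeff i))
    (Polynomial.support_nonempty.mpr hp)
  have hγ : p.coeff i ≠ 0 := mem_support_iff.mp hi
  have hall : ∀ n, Q.G v (Q.ord v (p.coeff i)) (p.coeff n) := by
    intro n hn
    exact hmin n (mem_support_iff.mpr hn)
  refine ⟨p.coeff i, hγ, hall, ?_⟩
  obtain ⟨p0, hp0⟩ := exists_lift (Q := Q) (v := v) (p := C (p.coeff i)⁻¹ * p) (by
    intro n
    rw [coeff_C_mul]
    have h1 := G_mul (G_self (Q := Q) (v := v) (x := (p.coeff i)⁻¹)) (hall n)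
    rw [ord_inv hγ] at h1
    exact G_mono h1 (by omega))
  refine ⟨p0, ?_, ?_⟩
  · rw [hp0, ← mul_assoc, ← C_mul, mul_inv_cancel₀ hγ, C_1, one_mul]
  · intro h
    have h1 : (p0.map (rs Q v)).coeff i = 0 := by rw [h, coeff_zero]
    rw [coeff_map, rs_eq_zero] at h1
    have h2 : ((p0.coeff i : VR Q v) : K) = 1 := by
      have h3 : (p0.map (algebraMap (VR Q v) K)).coeff i = 1 := by
        rw [hp0, coeff_C_mul, inv_mul_cancel₀ hγ]
      rw [coeff_map] at h3
      exact h3
    rw [h2] at h1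
    have h3 := h1 one_ne_zero
    rw [ord_one] at h3
    omega

lemma eval_map_VR (p0 : (VR Q v)[X]) (x : VR Q v) :
    (p0.map (algebraMap (VR Q v) K)).eval (x : K) = ((p0.eval x : VR Q v) : K) := by
  have h1 : (x : K) = algebraMap (VR Q v) K x := rfl
  rw [h1, eval_map, eval₂_at_apply]
  rfl

end Pool.Agent.W277.UF
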