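import Mathlib
import Pool.Agent.W277.UF.E1

/-!
# The energy of a residue class
-/

namespace Pool.Agent.W277.UF

open Finset Polynomial Pool.Agent.W277.UB PlaceData

variable {k K : Type*} [Field k] [Field K] [Algebra k K]
variable {Q : PlaceData k K} {v : Q.Pl}

lemma ord_prod {ι : Type*} (s : Finset ι) (f : ι → K) (h : ∀ i ∈ s, f i ≠ 0) :
    Q.ord v (∏ i ∈ s, f i) = ∑ i ∈ s, Q.ord v (f i) := by
  classical
  induction s using Finset.induction_on with
  | empty => simp [ord_one]
  | insert a s ha ih =>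
    rw [Finset.prod_insert ha, Finset.sum_insert ha, Q.ord_mul v _ _ (h a (mem_insert_self a s))
      (Finset.prod_ne_zero_iff.mpr fun i hi => h i (mem_insert_of_mem hi)),
      ih fun i hi => h i (mem_insert_of_mem hi)]

/-- Lagrange interpolation: some point is close to the others. -/
lemma lag_step [DecidableEq K] {S : Finset K} {n : ℕ} (hS : S.card = n + 1) {R : K[X]}
    (hR : R.natDegree ≤ n)
    (hlc : R.coeff n ≠ 0) (hlc' : Q.ord v (R.coeff n) ≤ 0) (s : ℤ)
    (h : ∀ x ∈ S, Q.G v s (R.eval x)) :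
    ∃ x ∈ S, s ≤ ∑ y ∈ S.erase x, Q.ord v (x - y) := by
  by_contra hcon
  push Not at hcon
  have hRn : R.natDegree = n := natDegree_eq_of_le_of_coeff_ne_zero hR hlc
  have hR0 : R ≠ 0 := by
    rintro rfl
    exact hlc (coeff_zero n)
  have hlag := Lagrange.leadingCoeff_eq_sum (s := S) (v := fun x : K => x)
    (fun x _ y _ h => h) (P := R) (by
      rw [degree_eq_natDegree hR0, hRn, hS]
      norm_cast)
  have h1 : Q.G v 1 (R.coeff n) := by
    rw [← hRn]
    change Q.G v 1 R.leadingCoeff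
    rw [hlag]
    apply G_sum
    intro x hx hne
    have hden : ∀ y ∈ S.erase x, x - y ≠ 0 := by
      intro y hy
      rw [sub_ne_zero]
      exact (Finset.ne_of_mem_erase hy).symm
    have hden' : ∏ y ∈ S.erase x, (x - y) ≠ 0 := Finset.prod_ne_zero_iff.mpr hden
    have hnum : R.eval x ≠ 0 := by
      intro h0
      rw [h0, zero_div] at hne
      exact hne rfl
    rw [ord_div hnum hden', ord_prod _ _ hden]
    have h2 := h x hx hnum
    have h3 := hcon x hx
    linarith
  have h2 := h1 hlc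
  linarith

/-- `x` is integral at `v` with residue `c`. -/
def Res (Q : PlaceData k K) (v : Q.Pl) (c : RF Q v) (x : K) : Prop :=
  ∃ h : x ∈ VR Q v, rs Q v ⟨x, h⟩ = c

lemma modByMonic_pow {F : Type*} [Field F] (c : F) (n : ℕ) (U : F[X]) :
    ((X - C c) ^ n * U) %ₘ (X - C c) ^ (n + 1) = C (U.eval c) * (X - C c) ^ n := by
  have h1 : (X - C c) ∣ U - C (U.eval c) := by
    rw [dvd_iff_isRoot]
    simp
  obtain ⟨q, hq⟩ := h1
  have hm : ((X - C c) ^ (n + 1)).Monic := (monic_X_sub_C c).pow _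
  refine (div_modByMonic_unique q _ hm ⟨?_, ?_⟩).2
  · have h2 : U = C (U.eval c) + (X - C c) * q := by
      rw [← hq]
      ring
    conv_rhs => rw [h2]
    ring
  · rw [degree_eq_natDegree hm.ne_zero, natDegree_pow_X_sub_C]
    refine lt_of_le_of_lt (degree_C_mul_le _ _) ?_
    rw [degree_eq_natDegree ((monic_X_sub_C c).pow n).ne_zero, natDegree_pow_X_sub_C]
    exact_mod_cast Nat.lt_succ_self n
  where
  degree_C_mul_le (a : F) (p : F[X]) : (C a * p).degree ≤ p.degree := by
    refine (degree_mul_le _ _).trans ?_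
    have := degree_C_le (a := a)
    calc (C a).degree + p.degree ≤ 0 + p.degree := by gcongr
      _ = p.degree := zero_add _
  natDegree_pow_X_sub_C {m : ℕ} : ((X - C c : F[X]) ^ m).natDegree = m := by
    rw [(monic_X_sub_C c).natDegree_pow, natDegree_X_sub_C, mul_one]

/-- The key step: among `n + 1` points of a residue class one is close to the others. -/
lemma class_step [DecidableEq K] (Φ : (VR Q v)[X]) (hΦ : Φ.map (rs Q v) ≠ 0) (c : RF Q v) (m : ℕ)
    (hm : (Φ.map (rs Q v)).rootMultiplicity c = m) (t : ℤ) (S : Finset K) (n : ℕ)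
    (hS : S.card = n + 1) (hres : ∀ x ∈ S, Res Q v c x)
    (ht : ∀ x ∈ S, Q.G v t ((Φ.map (algebraMap (VR Q v) K)).eval x)) :
    ∃ x ∈ S, ((n / m : ℕ) : ℤ) * t ≤ ∑ y ∈ S.erase x, Q.ord v (x - y) := by
  classical
  obtain ⟨x1, hx1⟩ : S.Nonempty := Finset.card_pos.mp (by omega)
  obtain ⟨hx1V, hx1c⟩ := hres x1 hx1
  set ξ : VR Q v := ⟨x1, hx1V⟩ with hξ
  set a := n / m with ha
  set b := n % m with hb
  have hab : m * a + b = n := Nat.div_add_mod n m
  set G0 : (VR Q v)[X] := Φ ^ a * (X - C ξ) ^ b with hG0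
  have hSV : ∀ x ∈ S, x ∈ VR Q v := fun x hx => (hres x hx).1
  set W0 : (VR Q v)[X] := ∏ x ∈ S.attach, (X - C ⟨x.1, hSV x.1 x.2⟩) with hW0
  have hW0m : W0.Monic := monic_prod_of_monic _ _ fun x _ => monic_X_sub_C _
  have hW0d : W0.natDegree = n + 1 := by
    rw [hW0, natDegree_prod_of_monic _ _ fun x _ => monic_X_sub_C _]
    simp [hS]
  have hW0map : W0.map (rs Q v) = (X - C c) ^ (n + 1) := by
    rw [hW0, Polynomial.map_prod]
    rw [Finset.prod_congr rfl (g := fun _ => (X - C c : (RF Q v)[X])) (by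
      intro x _
      rw [Polynomial.map_sub, map_X, map_C]
      congr 2
      obtain ⟨h1, h2⟩ := hres x.1 x.2
      exact h2)]
    rw [Finset.prod_const, Finset.card_attach, hS]
  set T := (Φ.map (rs Q v)) /ₘ ((X - C c) ^ m) with hT
  have hT1 : (X - C c) ^ m * T = Φ.map (rs Q v) := by
    have := pow_mul_divByMonic_rootMultiplicity_eq (Φ.map (rs Q v)) c
    rwa [hm] at this
  have hT2 : T.eval c ≠ 0 := by
    have := eval_divByMonic_pow_rootMultiplicity_ne_zero c hΦ
    rwa [hm] at this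
  have hG0map : G0.map (rs Q v) = (X - C c) ^ n * T ^ a := by
    rw [hG0, Polynomial.map_mul, Polynomial.map_pow, Polynomial.map_pow, Polynomial.map_sub, map_X,
      map_C, hx1c, ← hT1, mul_pow, ← pow_mul]
    conv_rhs => rw [← hab, pow_add]
    ring
  set R0 := G0 %ₘ W0 with hR0
  have hR0map : R0.map (rs Q v) = C (T.eval c ^ a) * (X - C c) ^ n := by
    rw [hR0, map_modByMonic _ hW0m, hG0map, hW0map, modByMonic_pow, eval_pow]
  have hR0deg : R0.natDegree ≤ n := by
    have h1 : R0.degree < W0.degree := degree_modByMonic_lt _ hW0m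
    rw [degree_eq_natDegree hW0m.ne_zero, hW0d] at h1
    by_cases h0 : R0 = 0
    · rw [h0, natDegree_zero]
      exact Nat.zero_le _
    · rw [degree_eq_natDegree h0] at h1
      have h2 : R0.natDegree < n + 1 := by exact_mod_cast h1
      omega
  have hR0co : rs Q v (R0.coeff n) ≠ 0 := by
    have h1 : (R0.map (rs Q v)).coeff n = T.eval c ^ a := by
      rw [hR0map, coeff_C_mul]
      have h2 : ((X - C c : (RF Q v)[X]) ^ n).coeff n = 1 := by
        have h3 := ((monic_X_sub_C c).pow n).coeff_natDegree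
        rwa [(monic_X_sub_C c).natDegree_pow, natDegree_X_sub_C, mul_one] at h3
      rw [h2, mul_one]
    rw [coeff_map] at h1
    rw [h1]
    exact pow_ne_zero _ hT2
  obtain ⟨hco1, hco2⟩ := rs_ne_zero hR0co
  have hev : ∀ x (hx : x ∈ S), (R0.map (algebraMap (VR Q v) K)).eval x =
      (G0.map (algebraMap (VR Q v) K)).eval x := by
    intro x hx
    have h1 : W0.eval ⟨x, hSV x hx⟩ = 0 := by
      rw [hW0, eval_prod]
      apply Finset.prod_eq_zero (Finset.mem_attach S ⟨x, hx⟩)
      simp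
    have h2 := modByMonic_add_div G0 W0
    have h3 : R0.eval ⟨x, hSV x hx⟩ = G0.eval ⟨x, hSV x hx⟩ := by
      rw [← h2, eval_add, eval_mul, h1, zero_mul, add_zero]
    have h4 := eval_map_VR R0 ⟨x, hSV x hx⟩
    have h5 := eval_map_VR G0 ⟨x, hSV x hx⟩
    simp only at h4 h5
    rw [h4, h5, h3]
  have hfin := lag_step (Q := Q) (v := v) hS (R := R0.map (algebraMap (VR Q v) K))
    (natDegree_map_le.trans hR0deg) (by
      rw [coeff_map]
      exact hco1) (by
      rw [coeff_map]
      exact hco2.le) ((a : ℤ) * t) (by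
      intro x hx
      rw [hev x hx, hG0, Polynomial.map_mul, Polynomial.map_pow, eval_mul, eval_pow]
      have h1 := G_mul (G_pow (ht x hx) a) (m := (a : ℤ) * t) (n := 0)
        (y := (((X - C ξ) ^ b).map (algebraMap (VR Q v) K)).eval x) (by
          have h2 := eval_map_VR ((X - C ξ) ^ b) ⟨x, hSV x hx⟩
          simp only at h2
          rw [h2]
          exact (((X - C ξ) ^ b).eval ⟨x, hSV x hx⟩ : VR Q v).2)
      rwa [add_zero] at h1)
  exact hfin

/-- The energy of a subset of a residue class. -/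
lemma class_energy [DecidableEq K] (Φ : (VR Q v)[X]) (hΦ : Φ.map (rs Q v) ≠ 0) (c : RF Q v) (m : ℕ)
    (hm : (Φ.map (rs Q v)).rootMultiplicity c = m) (t : ℤ) :
    ∀ (n : ℕ) (S : Finset K), S.card = n → (∀ x ∈ S, Res Q v c x) →
    (∀ x ∈ S, Q.G v t ((Φ.map (algebraMap (VR Q v) K)).eval x)) →
    2 * t * ∑ i ∈ range n, ((i / m : ℕ) : ℤ) ≤ ∑ x ∈ S, ∑ y ∈ S.erase x, Q.ord v (x - y) := by
  intro n
  induction n with
  | zero =>
    intro S hS _ _
    rw [Finset.card_eq_zero] at hS
    simp [hS]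
  | succ n ih =>
    intro S hS hres ht
    obtain ⟨x, hx, hxs⟩ := class_step Φ hΦ c m hm t S n hS hres ht
    have hcard : (S.erase x).card = n := by
      rw [Finset.card_erase_of_mem hx, hS]
      rfl
    have h1 := ih (S.erase x) hcard (fun y hy => hres y (Finset.mem_of_mem_erase hy))
      (fun y hy => ht y (Finset.mem_of_mem_erase hy))
    rw [Finset.sum_range_succ]
    have h2 : ∑ a ∈ S, ∑ b ∈ S.erase a, Q.ord v (a - b) =
        ∑ y ∈ S.erase x, Q.ord v (x - y) + ∑ a ∈ S.erase x, (Q.ord v (a - x) +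
          ∑ b ∈ (S.erase x).erase a, Q.ord v (a - b)) := by
      rw [← Finset.add_sum_erase S _ hx]
      congr 1
      refine Finset.sum_congr rfl fun a ha => ?_
      have hxa : x ∈ S.erase a := Finset.mem_erase.mpr ⟨(Finset.ne_of_mem_erase ha).symm, hx⟩
      rw [← Finset.add_sum_erase (S.erase a) _ hxa, Finset.erase_right_comm]
    rw [h2, Finset.sum_add_distrib]
    have h3 : ∑ a ∈ S.erase x, Q.ord v (a - x) = ∑ a ∈ S.erase x, Q.ord v (x - a) := by
      refine Finset.sum_congr rfl fun a ha => ?_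
      have hne : x - a ≠ 0 := by
        rw [sub_ne_zero]
        exact (Finset.ne_of_mem_erase ha).symm
      rw [← ord_neg hne, neg_sub]
    rw [h3]
    linarith

end Pool.Agent.W277.UF
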