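import Mathlib

/-!
# Multiplicities of the roots of a polynomial satisfying a first order equation
-/

namespace Pool.Agent.W277.UF

open Finset Polynomial

variable {F : Type*} [Field F]

lemma sum_le_natDegree_of_dvd [DecidableEq F] {H : F[X]} (hH : H ≠ 0) (S : Finset F) (a : F → ℕ)
    (h : ∀ c ∈ S, (X - C c) ^ a c ∣ H) : ∑ c ∈ S, a c ≤ H.natDegree := by
  have h1 : ∏ c ∈ S, (X - C c) ^ a c ∣ H := by
    apply Finset.prod_dvd_of_coprime
    · intro c _ c' _ hcc
      exact IsCoprime.pow (isCoprime_X_sub_C_of_isUnit_sub (sub_ne_zero.mpr hcc).isUnit)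
    · exact h
  have h2 := natDegree_le_of_dvd h1 hH
  rw [natDegree_prod_of_monic _ _ fun c _ => (monic_X_sub_C c).pow _] at h2
  refine le_trans (le_of_eq ?_) h2
  refine Finset.sum_congr rfl fun c _ => ?_
  rw [(monic_X_sub_C c).natDegree_pow, natDegree_X_sub_C, mul_one]

lemma sum_mult_le [DecidableEq F] {R : F[X]} (hR : R ≠ 0) (S : Finset F) :
    ∑ c ∈ S, R.rootMultiplicity c ≤ R.natDegree :=
  sum_le_natDegree_of_dvd hR S _ fun c _ => pow_rootMultiplicity_dvd R c

/-- First case: an Euler type equation. -/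
lemma mult_case1 [CharZero F] [DecidableEq F] {R : F[X]} (hR : R ≠ 0) (a : F) {d e : ℕ} (hd : 1 ≤ d)
    (h : ((X + C a) * derivative R - C (d : F) * R).natDegree ≤ e) {c1 c2 : F} (hc : c1 ≠ c2)
    (h1 : R.IsRoot c1) (h2 : R.IsRoot c2) (S : Finset F) :
    ∑ c ∈ S, (R.rootMultiplicity c - 1) ≤ e := by
  have hR'ne : derivative R ≠ 0 := by
    intro h0
    have h3 := derivative_eq_zero.mp h0
    rw [natDegree_eq_zero] at h3
    obtain ⟨x, rfl⟩ := h3
    rw [IsRoot, eval_C] at h1
    exact hR (by rw [h1, C_0])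
  have hne : (X + C a) * derivative R - C (d : F) * R ≠ 0 := by
    intro h0
    -- a root different from `-a`
    obtain ⟨c, hca, hcr⟩ : ∃ c, c ≠ -a ∧ R.IsRoot c := by
      by_cases h3 : c1 = -a
      · exact ⟨c2, fun h4 => hc (h3.trans h4.symm), h2⟩
      · exact ⟨c1, h3, h1⟩
    have hd0 : (d : F) ≠ 0 := by
      rw [Nat.cast_ne_zero]
      omega
    have h4 : (X - C c) ^ R.rootMultiplicity c ∣ (X + C a) * derivative R := by
      rw [sub_eq_zero.mp h0]
      exact Dvd.dvd.mul_left (pow_rootMultiplicity_dvd R c) _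
    have h5 : IsCoprime ((X - C c) ^ R.rootMultiplicity c) (X + C a : F[X]) := by
      apply IsCoprime.pow_left
      have h6 : (X + C a : F[X]) = X - C (-a) := by
        rw [C_neg, sub_neg_eq_add]
      rw [h6]
      exact isCoprime_X_sub_C_of_isUnit_sub (sub_ne_zero.mpr hca).isUnit
    have h6 : (X - C c) ^ R.rootMultiplicity c ∣ derivative R := h5.dvd_of_dvd_mul_left h4
    have h7 : R.rootMultiplicity c ≤ (derivative R).rootMultiplicity c :=
      (le_rootMultiplicity_iff hR'ne).mpr h6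
    rw [derivative_rootMultiplicity_of_root hcr] at h7
    have h8 := (rootMultiplicity_pos hR).mpr hcr
    omega
  refine (sum_le_natDegree_of_dvd hne S _ ?_).trans h
  intro c _
  apply dvd_sub
  · apply Dvd.dvd.mul_left
    exact pow_sub_one_dvd_derivative_of_pow_dvd (pow_rootMultiplicity_dvd R c)
  · apply Dvd.dvd.mul_left
    exact (pow_dvd_pow _ (Nat.sub_le _ _)).trans (pow_rootMultiplicity_dvd R c)

/-- Second case: the derivative has small degree. -/
lemma mult_case2 [CharZero F] [DecidableEq F] {R : F[X]} (hR : R ≠ 0) {e : ℕ}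
    (h : (derivative R).natDegree ≤ e) {c1 : F} (h1 : R.IsRoot c1) (S : Finset F) :
    ∑ c ∈ S, (R.rootMultiplicity c - 1) ≤ e := by
  have hR'ne : derivative R ≠ 0 := by
    intro h0
    have h3 := derivative_eq_zero.mp h0
    rw [natDegree_eq_zero] at h3
    obtain ⟨x, rfl⟩ := h3
    rw [IsRoot, eval_C] at h1
    exact hR (by rw [h1, C_0])
  refine (sum_le_natDegree_of_dvd hR'ne S _ ?_).trans h
  intro c _
  exact pow_sub_one_dvd_derivative_of_pow_dvd (pow_rootMultiplicity_dvd R c)

/-- Multiplicity of a root of a composition. -/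
lemma mult_comp {R1 R2 : F[X]} (h1 : R1 ≠ 0) (h2 : R2 ≠ 0) {c : F} (hc : R1.IsRoot c) :
    R2.comp R1 ≠ 0 ∧
      (R2.comp R1).rootMultiplicity c = R2.rootMultiplicity 0 * R1.rootMultiplicity c := by
  set r := R2.rootMultiplicity 0 with hr
  set T := R2 /ₘ ((X - C 0) ^ r) with hT
  have hT1 : (X - C 0) ^ r * T = R2 := pow_mul_divByMonic_rootMultiplicity_eq R2 0
  have hT2 : T.eval 0 ≠ 0 := eval_divByMonic_pow_rootMultiplicity_ne_zero 0 h2
  have h3 : R2.comp R1 = R1 ^ r * T.comp R1 := by
    conv_lhs => rw [← hT1]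
    rw [mul_comp, pow_comp, sub_comp, X_comp, C_comp, C_0, sub_zero]
  have h4 : (T.comp R1).eval c ≠ 0 := by
    rw [eval_comp, hc]
    exact hT2
  have h5 : T.comp R1 ≠ 0 := by
    intro h
    rw [h, eval_zero] at h4
    exact h4 rfl
  have h6 : R1 ^ r * T.comp R1 ≠ 0 := mul_ne_zero (pow_ne_zero _ h1) h5
  refine ⟨h3 ▸ h6, ?_⟩
  rw [h3, rootMultiplicity_mul h6, rootMultiplicity_eq_zero h4, add_zero]
  have h7 : ∀ n : ℕ, (R1 ^ n).rootMultiplicity c = n * R1.rootMultiplicity c := by
    intro n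
    induction n with
    | zero =>
      rw [pow_zero, zero_mul]
      exact rootMultiplicity_eq_zero (by simp [IsRoot])
    | succ n ih =>
      rw [pow_succ, rootMultiplicity_mul (mul_ne_zero (pow_ne_zero n h1) h1), ih]
      ring
  exact h7 r

lemma natDegree_euler {g : F[X]} {d e : ℕ} (hg : g.natDegree ≤ e) :
    (X * derivative g - C (d : F) * g).natDegree ≤ e := by
  rw [natDegree_le_iff_coeff_eq_zero]
  intro n hn
  obtain ⟨m, rfl⟩ : ∃ m, n = m + 1 := ⟨n - 1, by omega⟩
  rw [coeff_sub, coeff_X_mul, coeff_derivative, coeff_C_mul,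
    coeff_eq_zero_of_natDegree_lt (by omega)]
  ring

lemma natDegree_euler' {f : F[X]} {A : F} {d e : ℕ} (hf : (f - C A * X ^ d).natDegree ≤ e) :
    (X * derivative f - C (d : F) * f).natDegree ≤ e := by
  have h1 := natDegree_euler (d := d) hf
  have h2 : X * derivative (f - C A * X ^ d) - C (d : F) * (f - C A * X ^ d) =
      X * derivative f - C (d : F) * f := by
    rw [derivative_sub, derivative_C_mul_X_pow, mul_sub]
    rcases Nat.eq_zero_or_pos d with rfl | hd
    · simp
    · have h3 : (X : F[X]) * (C (A * (d : F)) * X ^ (d - 1)) = C (d : F) * (C A * X ^ d) := by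
        rw [C_mul]
        have h4 : (X : F[X]) ^ d = X ^ (d - 1) * X := by
          rw [← pow_succ]
          congr 1
          omega
        rw [h4]
        ring
      rw [h3]
      ring
  rwa [h2] at h1

end Pool.Agent.W277.UF
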