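import Mathlib
import Pool.Agent.W277.UF.E2
import Pool.Agent.W277.UF.E3
import Pool.Agent.W277.UC.Poly
import Pool.Agent.W277.UC.PolySmall

/-!
# The residue classes at a bad place
-/

namespace Pool.Agent.W277.UF

open Finset Polynomial Pool.Agent.W277.UB PlaceData Pool.Agent.W277.UC

variable {k K : Type*} [Field k] [Field K] [Algebra k K]
variable {Q : PlaceData k K} {v : Q.Pl}

lemma Res_iff {c : RF Q v} {x : VR Q v} : Res Q v c (x : K) ↔ rs Q v x = c := by
  constructor
  · rintro ⟨h, h1⟩
    exact h1
  · intro h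
    exact ⟨x.2, h⟩

/-- The shifted and scaled polynomial. -/
lemma scaled (h : K[X]) (n : ℕ) (hn : h.natDegree = n) (hn1 : 1 ≤ n) (ϖ x0 : K) (hϖ : ϖ ≠ 0) :
    h.comp (C ϖ * X + C x0) - C (h.eval x0) ≠ 0 ∧
    (h.comp (C ϖ * X + C x0) - C (h.eval x0)).coeff n = h.leadingCoeff * ϖ ^ n ∧
    (h.comp (C ϖ * X + C x0) - C (h.eval x0)).natDegree = n := by
  have hlin : (C ϖ * X + C x0 : K[X]).natDegree = 1 := natDegree_linear hϖ
  have hlin' : (C ϖ * X + C x0 : K[X]).leadingCoeff = ϖ := leadingCoeff_linear hϖ
  have hd : (h.comp (C ϖ * X + C x0)).natDegree = n := by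
    rw [natDegree_comp, hlin, mul_one, hn]
  have hl : (h.comp (C ϖ * X + C x0)).leadingCoeff = h.leadingCoeff * ϖ ^ n := by
    rw [leadingCoeff_comp (by rw [hlin]; exact one_ne_zero), hlin', hn]
  have hd' : (h.comp (C ϖ * X + C x0) - C (h.eval x0)).natDegree = n := by
    rw [natDegree_sub_C, hd]
  refine ⟨?_, ?_, hd'⟩
  · intro h0
    rw [h0, natDegree_zero] at hd'
    omega
  · rw [coeff_sub, coeff_C_of_ne_zero (by omega), sub_zero, ← hl, leadingCoeff, hd]

/-- The multiplicities of the reduction of a gap polynomial. -/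
lemma mult_gap [CharZero k] {e d : ℕ} {A : K} {f : K[X]} (hd : 2 ≤ d)
    (hf : (f - C A * X ^ d).natDegree ≤ e) (ϖ x0 γ : K) (hϖ : ϖ ≠ 0) (hγ : γ ≠ 0)
    (p : (VR Q v)[X]) (hp : C γ * p.map (algebraMap (VR Q v) K) =
      f.comp (C ϖ * X + C x0) - C (f.eval x0)) (hp0 : p.map (rs Q v) ≠ 0)
    {c1 c2 : RF Q v} (hc : c1 ≠ c2) (h1 : (p.map (rs Q v)).IsRoot c1)
    (h2 : (p.map (rs Q v)).IsRoot c2) (S : Finset (RF Q v)) :
    ∑ c ∈ S, ((p.map (rs Q v)).rootMultiplicity c - 1) ≤ e := by
  classical
  set a := algebraMap (VR Q v) K with ha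
  have hainj : Function.Injective a := Subtype.val_injective
  set P := p.map a with hP
  set w := f.eval x0 with hw
  have hE := natDegree_euler' (d := d) hf
  set y : K[X] := C ϖ * X + C x0 with hy
  have hyd : y.natDegree ≤ 1 := natDegree_linear_le
  -- the equation for the scaled polynomial
  have hder : derivative (C γ * P) = C ϖ * (derivative f).comp y := by
    rw [hp, derivative_sub, derivative_C, sub_zero, derivative_comp, hy]
    simp
  have heq : y * derivative (C γ * P) - C ((d : K) * ϖ) * (C γ * P) =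
      C ϖ * (X * derivative f - C (d : K) * f).comp y + C ((d : K) * ϖ * w) := by
    rw [hder, hp, sub_comp, mul_comp, mul_comp, X_comp, C_comp]
    simp only [C_mul]
    ring
  have hdeg : (y * derivative (C γ * P) - C ((d : K) * ϖ) * (C γ * P)).natDegree ≤ e := by
    rw [heq]
    refine (natDegree_add_le _ _).trans (max_le ?_ ?_)
    · refine (natDegree_C_mul_le _ _).trans (natDegree_comp_le.trans ?_)
      calc (X * derivative f - C (d : K) * f).natDegree * y.natDegree ≤ e * 1 :=
            Nat.mul_le_mul hE hyd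
        _ = e := mul_one e
    · rw [natDegree_C]
      exact Nat.zero_le _
  by_cases hcase : Q.G v (Q.ord v ϖ) x0
  · -- the centre is close
    have hb : x0 / ϖ ∈ VR Q v := by
      rw [mem_VR]
      intro hne
      have hx0 : x0 ≠ 0 := by
        rintro rfl
        exact hne (zero_div _)
      rw [ord_div hx0 hϖ]
      have := hcase hx0
      linarith
    set b : VR Q v := ⟨x0 / ϖ, hb⟩ with hbd
    have hL : ((X + C b) * derivative p - C (d : VR Q v) * p).map a =
        C (ϖ⁻¹ * γ⁻¹) * (y * derivative (C γ * P) - C ((d : K) * ϖ) * (C γ * P)) := by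
      rw [Polynomial.map_sub, Polynomial.map_mul, Polynomial.map_mul, Polynomial.map_add, map_X,
        map_C, map_C, ← derivative_map, derivative_C_mul]
      have h3 : a b = x0 / ϖ := rfl
      have h4 : a (d : VR Q v) = (d : K) := map_natCast a d
      rw [h3, h4, ← hP]
      have h5 : y = C ϖ * (X + C (x0 / ϖ)) := by
        rw [hy, mul_add, ← C_mul, mul_div_cancel₀ x0 hϖ]
      rw [h5]
      have h6 : C (ϖ⁻¹ * γ⁻¹) * C ϖ * C γ = (1 : K[X]) := by
        rw [← C_mul, ← C_mul]
        rw [show ϖ⁻¹ * γ⁻¹ * ϖ * γ = 1 by field_simp, C_1]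
      rw [C_mul (a := (d : K)) (b := ϖ)]
      linear_combination (-((X + C (x0 / ϖ)) * derivative P - C (d : K) * P)) * h6
    have hL' : ((X + C b) * derivative p - C (d : VR Q v) * p).natDegree ≤ e := by
      rw [← natDegree_map_eq_of_injective hainj, hL]
      exact (natDegree_C_mul_le _ _).trans hdeg
    have hL2 : ((X + C (rs Q v b)) * derivative (p.map (rs Q v)) -
        C (d : RF Q v) * p.map (rs Q v)).natDegree ≤ e := by
      have h3 : ((X + C b) * derivative p - C (d : VR Q v) * p).map (rs Q v) =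
          (X + C (rs Q v b)) * derivative (p.map (rs Q v)) - C (d : RF Q v) * p.map (rs Q v) := by
        rw [Polynomial.map_sub, Polynomial.map_mul, Polynomial.map_mul, Polynomial.map_add, map_X,
          map_C, map_C, derivative_map, map_natCast]
      rw [← h3]
      exact natDegree_map_le.trans hL'
    exact mult_case1 hp0 _ (by omega) hL2 hc h1 h2 S
  · -- the centre is far
    have hx0 : x0 ≠ 0 := by
      rintro rfl
      exact hcase G_zero
    have hlt : Q.ord v x0 < Q.ord v ϖ := by
      by_contra hcon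
      exact hcase fun _ => not_lt.mp hcon
    have hb : ϖ / x0 ∈ VR Q v := by
      rw [mem_VR]
      intro _
      rw [ord_div hϖ hx0]
      linarith
    set b : VR Q v := ⟨ϖ / x0, hb⟩ with hbd
    have hrb : rs Q v b = 0 := by
      rw [rs_eq_zero]
      intro _
      have h3 : ((b : VR Q v) : K) = ϖ / x0 := rfl
      rw [h3, ord_div hϖ hx0]
      linarith
    have hL : ((C b * X + 1) * derivative p - C ((d : VR Q v) * b) * p).map a =
        C (x0⁻¹ * γ⁻¹) * (y * derivative (C γ * P) - C ((d : K) * ϖ) * (C γ * P)) := by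
      rw [Polynomial.map_sub, Polynomial.map_mul, Polynomial.map_mul, Polynomial.map_add,
        Polynomial.map_mul, map_X, map_C, map_C, Polynomial.map_one, ← derivative_map,
        derivative_C_mul, map_mul]
      have h3 : a b = ϖ / x0 := rfl
      have h4 : a (d : VR Q v) = (d : K) := map_natCast a d
      rw [h3, h4, ← hP]
      have h5 : y = C x0 * (C (ϖ / x0) * X + 1) := by
        rw [hy, mul_add, mul_one, ← mul_assoc, ← C_mul, mul_div_cancel₀ ϖ hx0]
      have h5' : C ((d : K) * ϖ) = C x0 * C ((d : K) * (ϖ / x0)) := by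
        rw [← C_mul]
        congr 1
        field_simp
      rw [h5, h5']
      have h6 : C (x0⁻¹ * γ⁻¹) * C x0 * C γ = (1 : K[X]) := by
        rw [← C_mul, ← C_mul]
        rw [show x0⁻¹ * γ⁻¹ * x0 * γ = 1 by field_simp, C_1]
      linear_combination (-((C (ϖ / x0) * X + 1) * derivative P - C ((d : K) * (ϖ / x0)) * P)) * h6
    have hL' : ((C b * X + 1) * derivative p - C ((d : VR Q v) * b) * p).natDegree ≤ e := by
      rw [← natDegree_map_eq_of_injective hainj, hL]
      exact (natDegree_C_mul_le _ _).trans hdeg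
    have hL2 : (derivative (p.map (rs Q v))).natDegree ≤ e := by
      have h3 : ((C b * X + 1) * derivative p - C ((d : VR Q v) * b) * p).map (rs Q v) =
          derivative (p.map (rs Q v)) := by
        rw [Polynomial.map_sub, Polynomial.map_mul, Polynomial.map_mul, Polynomial.map_add,
          Polynomial.map_mul, map_X, map_C, map_C, Polynomial.map_one, derivative_map, map_mul, hrb]
        simp
      rw [← h3]
      exact natDegree_map_le.trans hL'
    exact mult_case2 hp0 hL2 h1 S

end Pool.Agent.W277.UF
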