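import Mathlib
import Pool.Agent.W277.UF.E4

/-!
# The residue classes at a bad place: energies
-/

namespace Pool.Agent.W277.UF

open Finset Polynomial Pool.Agent.W277.UB PlaceData Pool.Agent.W277.UC

variable {k K : Type*} [Field k] [Field K] [Algebra k K]
variable {Q : PlaceData k K}

/-- Residue classes, multiplicities and energies at a bad place. -/
theorem local_data [CharZero k] [DecidableEq K] {e d B : ℕ} {A : K} {f g : K[X]} {P : Finset K}
    (hS : StabA e d A f P) (hed : e < d) (hd : 2 ≤ d)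
    (hgd : g.natDegree = B) (hB : 1 ≤ B) (hg : ∀ z ∈ P, g.eval z ∈ P)
    (v : Q.Pl) (hgl : ((d : ℤ) - 1) * Q.ord v g.leadingCoeff = ((B : ℤ) - 1) * Q.ord v A)
    (q : ℤ) (hq : ∀ x ∈ P, ∀ y ∈ P, Q.G v (-q) (x - y)) {za zb : K} (hza : za ∈ P) (hzb : zb ∈ P)
    (hab : za ≠ zb) (hqab : Q.ord v (za - zb) = -q) (hQ : Q.ord v A < ((d : ℤ) - 1) * q) :
    ∃ (cls : K → RF Q v) (m : RF Q v → ℕ),
      (∀ x ∈ P, ∀ y ∈ P, x ≠ y → (cls x = cls y ↔ -q < Q.ord v (x - y))) ∧
      (∀ x ∈ P, 1 ≤ m (cls x)) ∧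
      (∀ C : Finset (RF Q v), ∑ c ∈ C, (m c - 1) ≤ e) ∧
      (∀ C : Finset (RF Q v), ∑ c ∈ C, m c ≤ d) ∧
      ∀ t : ℤ, ((d : ℤ) - 1) * t = ((B : ℤ) * d - 1) * (((d : ℤ) - 1) * q - Q.ord v A) →
        ∀ c : RF Q v, ∀ S ⊆ P, (∀ x ∈ S, cls x = c) →
        2 * t * ∑ i ∈ range S.card, ((i / (B * m c) : ℕ) : ℤ) ≤
          ∑ x ∈ S, ∑ y ∈ S.erase x, (Q.ord v (x - y) + q) := by
  classical
  obtain ⟨hfd, hfl, hf0⟩ := lead_f hS.hA hS.hf hed
  have hA := hS.hA
  have hd1 : (0 : ℤ) < (d : ℤ) - 1 := by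
    have : (2 : ℤ) ≤ d := by exact_mod_cast hd
    linarith
  set ϖ := za - zb with hϖd
  have hϖ : ϖ ≠ 0 := sub_ne_zero.mpr hab
  set φ : K → K := fun z => (z - za) / ϖ with hφ
  have hφz : ∀ z, z = ϖ * φ z + za := by
    intro z
    simp only [hφ]
    field_simp
    ring
  have hφinj : Function.Injective φ := by
    intro x y hxy
    rw [hφz x, hφz y, hxy]
  have hφV : ∀ z ∈ P, φ z ∈ VR Q v := by
    intro z hz
    rw [mem_VR]
    intro hne
    have hz0 : z - za ≠ 0 := by
      intro h0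
      apply hne
      simp only [hφ]
      rw [h0, zero_div]
    simp only [hφ]
    rw [ord_div hz0 hϖ, hqab]
    have := hq z hz za hza hz0
    linarith
  set cls : K → RF Q v := fun z => if h : φ z ∈ VR Q v then rs Q v ⟨φ z, h⟩ else 0 with hcls
  have hclsz : ∀ z (hz : z ∈ P), cls z = rs Q v ⟨φ z, hφV z hz⟩ := by
    intro z hz
    simp only [hcls, dif_pos (hφV z hz)]
  have hord : ∀ x y, x ≠ y → Q.ord v (φ x - φ y) = Q.ord v (x - y) + q := by
    intro x y hxy
    have h1 : φ x - φ y = (x - y) / ϖ := by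
      simp only [hφ]
      ring
    rw [h1, ord_div (sub_ne_zero.mpr hxy) hϖ, hqab]
    ring
  have hcl1 : ∀ x ∈ P, ∀ y ∈ P, x ≠ y → (cls x = cls y ↔ -q < Q.ord v (x - y)) := by
    intro x hx y hy hxy
    rw [hclsz x hx, hclsz y hy, rs_eq_iff]
    have h1 : φ x - φ y ≠ 0 := sub_ne_zero.mpr fun h => hxy (hφinj h)
    constructor
    · intro h
      have h2 := h h1
      simp only at h2
      rw [hord x y hxy] at h2
      linarith
    · intro h _
      simp only
      rw [hord x y hxy]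
      linarith
  -- the reduction of `f`
  obtain ⟨s1, s2, -⟩ := scaled f d hfd (by omega) ϖ za hϖ
  obtain ⟨γ1, hγ1, hall1, p1, hp1, hp1ne⟩ := exists_norm (v := v) (Q := Q) s1
  have hγ1le : Q.ord v γ1 ≤ Q.ord v A - d * q := by
    have h1 := hall1 d
    rw [s2, hfl] at h1
    have h2 := h1 (mul_ne_zero hA (pow_ne_zero _ hϖ))
    rw [Q.ord_mul v _ _ hA (pow_ne_zero _ hϖ), ord_pow hϖ, hqab] at h2
    linarith
  set w0 := f.eval za with hw0
  have hev1 : ∀ z, (p1.map (algebraMap (VR Q v) K)).eval (φ z) = (f.eval z - w0) / γ1 := by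
    intro z
    have h1 := congrArg (Polynomial.eval (φ z)) hp1
    rw [eval_mul, eval_C, eval_sub, eval_comp, eval_C] at h1
    have h2 : (C ϖ * X + C za : K[X]).eval (φ z) = z := by
      simp only [eval_add, eval_mul, eval_C, eval_X]
      exact (hφz z).symm
    rw [h2] at h1
    rw [← h1, mul_div_cancel_left₀ _ hγ1]
  have hroot : ∀ z (hz : z ∈ P), (p1.map (rs Q v)).IsRoot (cls z) := by
    intro z hz
    have h1 := eval_map_VR p1 ⟨φ z, hφV z hz⟩
    simp only at h1
    rw [hev1] at h1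
    have h2 : rs Q v (p1.eval ⟨φ z, hφV z hz⟩) = 0 := by
      rw [rs_eq_zero, ← h1]
      intro hne
      have hnum : f.eval z - w0 ≠ 0 := by
        intro h0
        rw [h0, zero_div] at hne
        exact hne rfl
      rw [ord_div hnum hγ1]
      have h3 := hq _ (hS.hP z hz) _ (hS.hP za hza) hnum
      have h4 : Q.ord v A + 1 ≤ ((d : ℤ) - 1) * q := hQ
      have h5 : ((d : ℤ) - 1) * q = d * q - q := by ring
      linarith
    rw [IsRoot, hclsz z hz, eval_map, eval₂_at_apply]
    exact h2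
  have hclab : cls za ≠ cls zb := by
    intro h
    have h1 := (hcl1 za hza zb hzb hab).mp h
    rw [← hϖd, hqab] at h1
    exact lt_irrefl _ h1
  refine ⟨cls, fun c => (p1.map (rs Q v)).rootMultiplicity c, hcl1, ?_, ?_, ?_, ?_⟩
  · intro x hx
    exact (rootMultiplicity_pos hp1ne).mpr (hroot x hx)
  · intro C
    exact mult_gap hd hS.hf ϖ za γ1 hϖ hγ1 p1 hp1 hp1ne hclab (hroot za hza) (hroot zb hzb) C
  · intro C
    refine (sum_mult_le hp1ne C).trans ?_
    refine natDegree_map_le.trans ?_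
    rw [← natDegree_map_eq_of_injective (f := algebraMap (VR Q v) K) Subtype.val_injective,
      ← natDegree_C_mul hγ1, hp1, natDegree_sub_C, natDegree_comp, hfd]
    exact (Nat.mul_le_mul_left d natDegree_linear_le).trans (le_of_eq (mul_one d))
  · intro t ht c S hSP hSc
    rcases S.eq_empty_or_nonempty with rfl | ⟨x1, hx1⟩
    · simp
    have hcr : (p1.map (rs Q v)).IsRoot c := by
      rw [← hSc x1 hx1]
      exact hroot x1 (hSP hx1)
    -- the second polynomial
    obtain ⟨u1, u2, u3⟩ := scaled g B hgd hB γ1 w0 hγ1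
    obtain ⟨γ2, hγ2, hall2, p2, hp2, hp2ne⟩ := exists_norm (v := v) (Q := Q) u1
    have hg0 : g.leadingCoeff ≠ 0 := by
      rw [Ne, leadingCoeff_eq_zero]
      rintro rfl
      rw [natDegree_zero] at hgd
      omega
    have hγ2le : Q.ord v γ2 ≤ Q.ord v g.leadingCoeff + B * Q.ord v γ1 := by
      have h1 := hall2 B
      rw [u2] at h1
      have h2 := h1 (mul_ne_zero hg0 (pow_ne_zero _ hγ1))
      rwa [Q.ord_mul v _ _ hg0 (pow_ne_zero _ hγ1), ord_pow hγ1] at h2
    have hB0 : (0 : ℤ) ≤ B := Int.natCast_nonneg B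
    have hγ2le' : Q.ord v γ2 ≤ Q.ord v g.leadingCoeff + B * (Q.ord v A - d * q) :=
      hγ2le.trans (by
        have := mul_le_mul_of_nonneg_left hγ1le hB0
        linarith)
    have hev2 : ∀ Y, (p2.map (algebraMap (VR Q v) K)).eval Y =
        (g.eval (γ1 * Y + w0) - g.eval w0) / γ2 := by
      intro Y
      have h1 := congrArg (Polynomial.eval Y) hp2
      rw [eval_mul, eval_C, eval_sub, eval_comp, eval_C] at h1
      have h2 : (C γ1 * X + C w0 : K[X]).eval Y = γ1 * Y + w0 := by
        simp only [eval_add, eval_mul, eval_C, eval_X]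
      rw [h2] at h1
      rw [← h1, mul_div_cancel_left₀ _ hγ2]
    have hroot2 : (p2.map (rs Q v)).IsRoot 0 := by
      have h1 := eval_map_VR p2 0
      have h2 : (((0 : VR Q v)) : K) = 0 := rfl
      rw [h2, hev2, mul_zero, zero_add, sub_self, zero_div] at h1
      have h3 : p2.eval 0 = 0 := Subtype.ext h1.symm
      have h4 : (0 : RF Q v) = rs Q v 0 := (map_zero _).symm
      rw [IsRoot, h4, eval_map, eval₂_at_apply, h3, map_zero]
    set Φ := p2.comp p1 with hΦd
    have hΦmap : Φ.map (rs Q v) = (p2.map (rs Q v)).comp (p1.map (rs Q v)) := Polynomial.map_comp _ _ _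
    obtain ⟨hΦne, hΦm⟩ := mult_comp hp1ne hp2ne hcr
    rw [← hΦmap] at hΦne hΦm
    set r := (p2.map (rs Q v)).rootMultiplicity 0 with hr
    have hr1 : 1 ≤ r := (rootMultiplicity_pos hp2ne).mpr hroot2
    have hrB : r ≤ B := by
      have h1 := sum_mult_le hp2ne {(0 : RF Q v)}
      rw [Finset.sum_singleton] at h1
      refine h1.trans (natDegree_map_le.trans ?_)
      rw [← natDegree_map_eq_of_injective (f := algebraMap (VR Q v) K) Subtype.val_injective,
        ← natDegree_C_mul hγ2, hp2, u3]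
    have hΦev : ∀ z ∈ P, Q.G v t ((Φ.map (algebraMap (VR Q v) K)).eval (φ z)) := by
      intro z hz
      have h1 : (Φ.map (algebraMap (VR Q v) K)).eval (φ z) =
          (g.eval (f.eval z) - g.eval w0) / γ2 := by
        rw [hΦd, Polynomial.map_comp, eval_comp, hev1, hev2, mul_div_cancel₀ _ hγ1, sub_add_cancel]
      rw [h1]
      intro hne
      have hnum : g.eval (f.eval z) - g.eval w0 ≠ 0 := by
        intro h0
        rw [h0, zero_div] at hne
        exact hne rfl
      rw [ord_div hnum hγ2]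
      have h3 := hq _ (hg _ (hS.hP z hz)) _ (hg _ (hS.hP za hza)) hnum
      have h4 : ((d : ℤ) - 1) * t ≤ ((d : ℤ) - 1) * (-q - Q.ord v γ2) := by
        rw [ht]
        have h5 := mul_le_mul_of_nonneg_left hγ2le' hd1.le
        have h6 : ((d : ℤ) - 1) * (Q.ord v g.leadingCoeff + B * (Q.ord v A - d * q)) =
            ((B : ℤ) - 1) * Q.ord v A + ((d : ℤ) - 1) * (B * (Q.ord v A - d * q)) := by
          rw [mul_add, hgl]
        rw [h6] at h5
        linarith
      have h5 := le_of_mul_le_mul_left h4 hd1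
      linarith
    have ht0 : 0 ≤ t := by
      have h1 : 0 ≤ ((d : ℤ) - 1) * t := by
        rw [ht]
        apply mul_nonneg
        · have hBd : (1 : ℤ) ≤ (B : ℤ) * d := by
            have h2 : (1 : ℤ) ≤ B := by exact_mod_cast hB
            have h3 : (1 : ℤ) ≤ d := by linarith
            nlinarith
          linarith
        · linarith
      exact nonneg_of_mul_nonneg_right h1 hd1
    have hmain := class_energy Φ hΦne c _ rfl t (S.image φ).card (S.image φ) rfl (by
      intro x hx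
      obtain ⟨z, hz, rfl⟩ := Finset.mem_image.mp hx
      refine ⟨hφV z (hSP hz), ?_⟩
      rw [← hclsz z (hSP hz)]
      exact hSc z hz) (by
      intro x hx
      obtain ⟨z, hz, rfl⟩ := Finset.mem_image.mp hx
      exact hΦev z (hSP hz))
    rw [Finset.card_image_of_injective _ hφinj, hΦm] at hmain
    have hsum : ∑ x ∈ S.image φ, ∑ y ∈ (S.image φ).erase x, Q.ord v (x - y) =
        ∑ x ∈ S, ∑ y ∈ S.erase x, (Q.ord v (x - y) + q) := by
      rw [Finset.sum_image (fun x _ y _ h => hφinj h)]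
      refine Finset.sum_congr rfl fun x _ => ?_
      rw [← Finset.image_erase hφinj, Finset.sum_image (fun x _ y _ h => hφinj h)]
      refine Finset.sum_congr rfl fun y hy => ?_
      exact hord x y (Finset.ne_of_mem_erase hy).symm
    rw [hsum] at hmain
    refine le_trans ?_ hmain
    apply mul_le_mul_of_nonneg_left _ (by linarith)
    apply Finset.sum_le_sum
    intro i _
    have h7 : 1 ≤ (p1.map (rs Q v)).rootMultiplicity c := (rootMultiplicity_pos hp1ne).mpr hcr
    have h8 : i / (B * (p1.map (rs Q v)).rootMultiplicity c) ≤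
        i / (r * (p1.map (rs Q v)).rootMultiplicity c) :=
      Nat.div_le_div_left (Nat.mul_le_mul_right _ hrB) (Nat.mul_pos hr1 h7)
    exact_mod_cast h8

end Pool.Agent.W277.UF
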