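import Mathlib

/-!
# The quadratic form estimate
-/

namespace Pool.Agent.W277.UF

open Finset

/-- The one variable inequality. -/
lemma psi_ineq (x μ : ℝ) (hx0 : 0 ≤ x) (hx1 : x ≤ 1) (hμ0 : 0 ≤ μ) (hμ : μ ≤ 1 / 2) :
    0 ≤ 13 * (x - μ) ^ 2 - x ^ 3 - 3 * μ * x ^ 2 + 2 * μ * x ^ 3 + 4 * μ ^ 3 := by
  obtain ⟨y, rfl⟩ : ∃ y, x = μ + y := ⟨x - μ, by ring⟩
  have h1 : 13 * (μ + y - μ) ^ 2 - (μ + y) ^ 3 - 3 * μ * (μ + y) ^ 2 + 2 * μ * (μ + y) ^ 3 +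
      4 * μ ^ 3 = 2 * μ ^ 4 - y * (9 * μ ^ 2 - 6 * μ ^ 3) +
        y ^ 2 * (13 - 6 * μ + 6 * μ ^ 2 - (1 - 2 * μ) * y) := by ring
  rw [h1]
  have h2 : (45 / 4 : ℝ) ≤ 13 - 6 * μ + 6 * μ ^ 2 - (1 - 2 * μ) * y := by
    have h3 : 0 ≤ (1 - 2 * μ) * (1 - y) := by
      apply mul_nonneg <;> linarith
    nlinarith [sq_nonneg (μ - 1 / 3)]
  have h3 : y ^ 2 * (45 / 4 : ℝ) ≤ y ^ 2 * (13 - 6 * μ + 6 * μ ^ 2 - (1 - 2 * μ) * y) :=
    mul_le_mul_of_nonneg_left h2 (sq_nonneg y)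
  rcases le_total 0 y with hy | hy
  · have h4 : 0 ≤ y * (6 * μ ^ 3) := by positivity
    nlinarith [sq_nonneg (μ ^ 2 - 9 / 4 * y), sq_nonneg y]
  · have h4 : 0 ≤ (-y) * (9 * μ ^ 2 - 6 * μ ^ 3) := by
      apply mul_nonneg (by linarith)
      have : 9 * μ ^ 2 - 6 * μ ^ 3 = μ ^ 2 * (9 - 6 * μ) := by ring
      rw [this]
      apply mul_nonneg (sq_nonneg μ)
      linarith
    have h5 : 0 ≤ μ ^ 4 := by positivity
    have h6 : 0 ≤ y ^ 2 := sq_nonneg y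
    linarith

/-- The inequality for one class. -/
lemma class_ineq (N D d B m n : ℝ) (hN : 0 < N) (hD : D = B * d) (hB : 1 ≤ B) (hd : 0 < d)
    (hD1 : 1 ≤ D) (hm : 0 < m) (hmd : 2 * m ≤ d) (hn0 : 0 ≤ n) (hnN : n ≤ N) :
    (D - 1) * (26 * N ^ 2 * n - 13 * (m / d) * N ^ 3 - 4 * (m / d) ^ 2 * N ^ 3 - 26 * D * N * n) ≤
      (13 * D * N - (D - 1) * n) * ((D - 1) * (n ^ 2 / (B * m) - 2 * n)) -
        (D - 1) * (n ^ 2 * (3 * N - 2 * n)) := by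
  set μ := m / d with hμ
  have hμ0 : 0 < μ := div_pos hm hd
  have hμ2 : μ ≤ 1 / 2 := by
    rw [hμ, div_le_iff₀ hd]
    linarith
  have hx1 : n / N ≤ 1 := by
    rw [div_le_iff₀ hN]
    linarith
  have hψ := psi_ineq (n / N) μ (by positivity) hx1 hμ0.le hμ2
  have hB0 : 0 < B := by linarith
  have hD0 : 0 < D := by linarith
  -- scale
  have h1 : 0 ≤ N ^ 3 * (13 * (n / N - μ) ^ 2 - (n / N) ^ 3 - 3 * μ * (n / N) ^ 2 +
      2 * μ * (n / N) ^ 3 + 4 * μ ^ 3) := by positivity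
  have h2 : N ^ 3 * (13 * (n / N - μ) ^ 2 - (n / N) ^ 3 - 3 * μ * (n / N) ^ 2 +
      2 * μ * (n / N) ^ 3 + 4 * μ ^ 3) = 13 * N * n ^ 2 - 26 * μ * N ^ 2 * n + 13 * μ ^ 2 * N ^ 3 -
        n ^ 3 - 3 * μ * N * n ^ 2 + 2 * μ * n ^ 3 + 4 * μ ^ 3 * N ^ 3 := by
    field_simp
    ring
  rw [h2] at h1
  have h3 : 26 * N ^ 2 * n - 13 * μ * N ^ 3 - 4 * μ ^ 2 * N ^ 3 ≤
      (13 * N - n) * n ^ 2 / μ - n ^ 2 * (3 * N - 2 * n) := by
    rw [div_sub' hμ0.ne', le_div_iff₀ hμ0]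
    nlinarith
  have h4 : n ^ 2 / (B * m) = n ^ 2 / (D * μ) := by
    rw [hD, hμ]
    congr 1
    field_simp
  have h5 : (13 * D * N - (D - 1) * n) * ((D - 1) * (n ^ 2 / (B * m) - 2 * n)) =
      (D - 1) * ((13 * N - (D - 1) / D * n) * n ^ 2 / μ - 26 * D * N * n + 2 * (D - 1) * n ^ 2) := by
    rw [h4]
    field_simp
    ring
  rw [h5]
  have h6 : (D - 1) / D ≤ 1 := by
    rw [div_le_iff₀ hD0]
    linarith
  have h7 : (13 * N - n) * n ^ 2 / μ ≤ (13 * N - (D - 1) / D * n) * n ^ 2 / μ := by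
    apply div_le_div_of_nonneg_right _ hμ0.le
    apply mul_le_mul_of_nonneg_right _ (sq_nonneg n)
    have := mul_le_mul_of_nonneg_right h6 hn0
    linarith
  have h8 : 0 ≤ 2 * (D - 1) * n ^ 2 := by
    apply mul_nonneg _ (sq_nonneg n)
    linarith
  have h9 : 0 ≤ D - 1 := by linarith
  have h10 : (D - 1) * (26 * N ^ 2 * n - 13 * μ * N ^ 3 - 4 * μ ^ 2 * N ^ 3 - 26 * D * N * n) ≤
      (D - 1) * ((13 * N - (D - 1) / D * n) * n ^ 2 / μ - 26 * D * N * n + 2 * (D - 1) * n ^ 2 -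
        n ^ 2 * (3 * N - 2 * n)) := by
    apply mul_le_mul_of_nonneg_left _ h9
    linarith
  linarith

lemma sum_sq_le {ι : Type*} (s : Finset ι) (a : ι → ℕ) : ∑ i ∈ s, a i ^ 2 ≤ (∑ i ∈ s, a i) ^ 2 := by
  classical
  induction s using Finset.induction_on with
  | empty => simp
  | insert b s hb ih =>
    rw [Finset.sum_insert hb, Finset.sum_insert hb]
    nlinarith [Nat.zero_le (a b * ∑ i ∈ s, a i)]

/-- The sum of the squares of the multiplicities. -/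
lemma sum_mult_sq {ι : Type*} (C : Finset ι) (m : ι → ℕ) (d e : ℕ) (hm : ∀ c ∈ C, 1 ≤ m c)
    (h1 : ∑ c ∈ C, (m c - 1) ≤ e) (h2 : ∑ c ∈ C, m c ≤ d) : ∑ c ∈ C, m c ^ 2 ≤ e ^ 2 + e + d := by
  have h3 : ∑ c ∈ C, m c ^ 2 = ∑ c ∈ C, (m c - 1) ^ 2 + ∑ c ∈ C, (m c - 1) + ∑ c ∈ C, m c := by
    rw [← Finset.sum_add_distrib, ← Finset.sum_add_distrib]
    refine Finset.sum_congr rfl fun c hc => ?_
    obtain ⟨a, ha⟩ : ∃ a, m c = a + 1 := ⟨m c - 1, by have := hm c hc; omega⟩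
    rw [ha, Nat.add_sub_cancel]
    ring
  rw [h3]
  have h4 := sum_sq_le C fun c => m c - 1
  have h5 : (∑ c ∈ C, (m c - 1)) ^ 2 ≤ e ^ 2 := Nat.pow_le_pow_left h1 2
  omega

/-- The main estimate at a bad place. -/
theorem comb_ineq {ι : Type*} (C : Finset ι) (n m : ι → ℕ) (N d e B : ℕ)
    (hN : ∑ c ∈ C, n c = N) (hm : ∀ c ∈ C, 1 ≤ m c)
    (h1 : ∑ c ∈ C, (m c - 1) ≤ e) (h2 : ∑ c ∈ C, m c ≤ d) (hd : 5 ≤ d) (he : 2 * e + 4 ≤ d)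
    (hB : 26 * d ^ 2 + 1 ≤ B * d) (hNN : 2 * d ^ 2 * (26 * (B * d) + 3) ≤ N) (q : ℝ) (hq : 0 ≤ q)
    (S : ι → ℝ) (hS0 : ∀ c ∈ C, 0 ≤ S c)
    (hS : ∀ c ∈ C, ((B : ℝ) * d - 1) * q * ((n c : ℝ) ^ 2 / (B * m c) - 2 * n c) ≤ S c) :
    ((B : ℝ) * d - 1) * N ^ 3 * q ≤ d ^ 2 * (((B : ℝ) * d - 1) *
      (q * (N * (N - 1) * (N - 2)) - ∑ c ∈ C, ((n c : ℝ) - 2) * S c) -
      q * (((B : ℝ) * d - 1) * ∑ c ∈ C, (n c : ℝ) ^ 2 * (3 * N - 2 * n c)) -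
      13 * ((B : ℝ) * d) * N * (N * (N - 1) * q - ∑ c ∈ C, S c)) := by
  set D : ℝ := (B : ℝ) * d with hD
  have hdR : (5 : ℝ) ≤ d := by exact_mod_cast hd
  have hd0 : (0 : ℝ) < d := by linarith
  have hBD : 26 * (d : ℝ) ^ 2 + 1 ≤ D := by
    rw [hD]
    exact_mod_cast hB
  have hB1 : (1 : ℝ) ≤ B := by
    have : 1 ≤ B := by
      rcases Nat.eq_zero_or_pos B with rfl | h
      · simp at hB
      · exact h
    exact_mod_cast this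
  have hD1 : 1 ≤ D := by
    have : 0 ≤ (d : ℝ) ^ 2 := by positivity
    linarith
  have hNR : 2 * (d : ℝ) ^ 2 * (26 * D + 3) ≤ N := by
    rw [hD]
    exact_mod_cast hNN
  have hN0 : (0 : ℝ) < N := by
    have : 0 < 2 * (d : ℝ) ^ 2 * (26 * D + 3) := by positivity
    linarith
  have hnN : ∀ c ∈ C, (n c : ℝ) ≤ N := by
    intro c hc
    have : n c ≤ N := by
      rw [← hN]
      exact Finset.single_le_sum (f := n) (fun _ _ => Nat.zero_le _) hc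
    exact_mod_cast this
  have hmd : ∀ c ∈ C, 2 * (m c : ℝ) ≤ d := by
    intro c hc
    have h3 : m c - 1 ≤ e := le_trans (Finset.single_le_sum (f := fun c => m c - 1)
      (fun _ _ => Nat.zero_le _) hc) h1
    have : 2 * m c ≤ d := by omega
    exact_mod_cast this
  -- each class
  have hcl : ∀ c ∈ C, q * ((D - 1) * (26 * N ^ 2 * n c - 13 * ((m c : ℝ) / d) * N ^ 3 -
      4 * ((m c : ℝ) / d) ^ 2 * N ^ 3 - 26 * D * N * n c)) ≤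
      (13 * D * N - (D - 1) * ((n c : ℝ) - 2)) * S c - q * ((D - 1) * ((n c : ℝ) ^ 2 * (3 * N - 2 * n c))) := by
    intro c hc
    have hm0 : (0 : ℝ) < m c := by
      have := hm c hc
      exact_mod_cast this
    have h3 := class_ineq N D d B (m c) (n c) hN0 hD hB1 hd0 hD1 hm0 (hmd c hc)
      (Nat.cast_nonneg _) (hnN c hc)
    have h4 := mul_le_mul_of_nonneg_left h3 hq
    refine h4.trans ?_
    have h5 : 0 ≤ 13 * D * N - (D - 1) * (n c : ℝ) := by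
      have h6 : (D - 1) * (n c : ℝ) ≤ D * N :=
        mul_le_mul (by linarith) (hnN c hc) (Nat.cast_nonneg _) (by linarith)
      have h7 : 0 ≤ D * N := by positivity
      linarith
    have h6 := mul_le_mul_of_nonneg_left (hS c hc) h5
    have h7 : 0 ≤ 2 * (D - 1) * S c := mul_nonneg (by linarith) (hS0 c hc)
    have h8 : q * ((13 * D * N - (D - 1) * (n c : ℝ)) * ((D - 1) * ((n c : ℝ) ^ 2 / (B * m c) -
        2 * n c)) - (D - 1) * ((n c : ℝ) ^ 2 * (3 * N - 2 * n c))) =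
        (13 * D * N - (D - 1) * (n c : ℝ)) * ((D - 1) * q * ((n c : ℝ) ^ 2 / (B * m c) -
          2 * n c)) - q * ((D - 1) * ((n c : ℝ) ^ 2 * (3 * N - 2 * n c))) := by ring
    rw [h8]
    have h9 : (13 * D * N - (D - 1) * ((n c : ℝ) - 2)) * S c =
        (13 * D * N - (D - 1) * (n c : ℝ)) * S c + 2 * (D - 1) * S c := by ring
    rw [h9]
    linarith
  have hsum := Finset.sum_le_sum hcl
  -- the left-hand side
  have hNsum : ∑ c ∈ C, (n c : ℝ) = N := by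
    rw [← hN]
    push_cast
    rfl
  have hmsum : ∑ c ∈ C, ((m c : ℝ) / d) ≤ 1 := by
    rw [← Finset.sum_div, div_le_iff₀ hd0, one_mul]
    exact_mod_cast h2
  have hmsq : ∑ c ∈ C, ((m c : ℝ) / d) ^ 2 ≤ 1 / 4 - 1 / (2 * (d : ℝ) ^ 2) := by
    have h3 : ∑ c ∈ C, ((m c : ℝ) / d) ^ 2 = (∑ c ∈ C, (m c : ℝ) ^ 2) / d ^ 2 := by
      rw [Finset.sum_div]
      exact Finset.sum_congr rfl fun c _ => by rw [div_pow]
    have h4 : (∑ c ∈ C, (m c : ℝ) ^ 2) ≤ (e : ℝ) ^ 2 + e + d := by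
      exact_mod_cast sum_mult_sq C m d e hm h1 h2
    have heR : 2 * (e : ℝ) + 4 ≤ d := by exact_mod_cast he
    have he0 : (0 : ℝ) ≤ e := Nat.cast_nonneg e
    have h5 : 4 * ((e : ℝ) ^ 2 + e + d) ≤ (d : ℝ) ^ 2 - 2 := by nlinarith
    rw [h3, div_le_iff₀ (by positivity)]
    have h6 : (1 / 4 - 1 / (2 * (d : ℝ) ^ 2)) * d ^ 2 = (d ^ 2 - 2) / 4 := by
      field_simp
      ring
    rw [h6]
    linarith
  have hL : q * ((D - 1) * (13 * (N : ℝ) ^ 3 - 4 * (1 / 4 - 1 / (2 * (d : ℝ) ^ 2)) * N ^ 3 -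
      26 * D * N ^ 2)) ≤
      ∑ c ∈ C, q * ((D - 1) * (26 * N ^ 2 * n c - 13 * ((m c : ℝ) / d) * N ^ 3 -
        4 * ((m c : ℝ) / d) ^ 2 * N ^ 3 - 26 * D * N * n c)) := by
    have h3 : ∑ c ∈ C, q * ((D - 1) * (26 * N ^ 2 * n c - 13 * ((m c : ℝ) / d) * N ^ 3 -
        4 * ((m c : ℝ) / d) ^ 2 * N ^ 3 - 26 * D * N * n c)) =
        q * ((D - 1) * (26 * N ^ 2 * (∑ c ∈ C, (n c : ℝ)) - 13 * (∑ c ∈ C, ((m c : ℝ) / d)) * N ^ 3 -
        4 * (∑ c ∈ C, ((m c : ℝ) / d) ^ 2) * N ^ 3 - 26 * D * N * (∑ c ∈ C, (n c : ℝ)))) := by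
      rw [← Finset.mul_sum, ← Finset.mul_sum]
      congr 2
      rw [Finset.sum_sub_distrib, Finset.sum_sub_distrib, Finset.sum_sub_distrib,
        ← Finset.mul_sum, ← Finset.mul_sum, ← Finset.sum_mul, ← Finset.sum_mul, ← Finset.mul_sum,
        ← Finset.mul_sum]
    rw [h3, hNsum]
    apply mul_le_mul_of_nonneg_left _ hq
    apply mul_le_mul_of_nonneg_left _ (by linarith)
    have hN3 : (0 : ℝ) ≤ (N : ℝ) ^ 3 := by positivity
    have h4 := mul_le_mul_of_nonneg_right hmsum hN3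
    have h5 := mul_le_mul_of_nonneg_right hmsq hN3
    nlinarith
  have hR : ∑ c ∈ C, ((13 * D * N - (D - 1) * ((n c : ℝ) - 2)) * S c -
      q * ((D - 1) * ((n c : ℝ) ^ 2 * (3 * N - 2 * n c)))) =
      13 * D * N * (∑ c ∈ C, S c) - (D - 1) * (∑ c ∈ C, ((n c : ℝ) - 2) * S c) -
        q * ((D - 1) * ∑ c ∈ C, (n c : ℝ) ^ 2 * (3 * N - 2 * n c)) := by
    rw [Finset.sum_sub_distrib]
    congr 1
    · rw [Finset.mul_sum, Finset.mul_sum, ← Finset.sum_sub_distrib]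
      exact Finset.sum_congr rfl fun c _ => by ring
    · rw [Finset.mul_sum, Finset.mul_sum]
  rw [hR] at hsum
  have hkey := hL.trans hsum
  -- final numerics
  have hfin : (D - 1) * (N : ℝ) ^ 3 ≤ d ^ 2 * ((D - 1) * (N * (N - 1) * (N - 2)) +
      (D - 1) * (13 * (N : ℝ) ^ 3 - 4 * (1 / 4 - 1 / (2 * (d : ℝ) ^ 2)) * N ^ 3 - 26 * D * N ^ 2) -
      13 * D * N * (N * (N - 1))) := by
    have e1 : d ^ 2 * ((D - 1) * (N * (N - 1) * (N - 2)) +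
      (D - 1) * (13 * (N : ℝ) ^ 3 - 4 * (1 / 4 - 1 / (2 * (d : ℝ) ^ 2)) * N ^ 3 - 26 * D * N ^ 2) -
      13 * D * N * (N * (N - 1))) = 2 * (D - 1) * N ^ 3 - (d : ℝ) ^ 2 * ((D - 1) * (26 * D + 3) * N ^ 2)
        - 13 * (d : ℝ) ^ 2 * N ^ 3 + (d : ℝ) ^ 2 * (2 * (D - 1) * N + 13 * D * N ^ 2) := by
      field_simp
      ring
    rw [e1]
    have e2 : (d : ℝ) ^ 2 * ((D - 1) * (26 * D + 3) * N ^ 2) ≤ (D - 1) * N ^ 3 / 2 := by
      have e3 : (0 : ℝ) ≤ (D - 1) * N ^ 2 := by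
        apply mul_nonneg (by linarith) (by positivity)
      have e4 := mul_le_mul_of_nonneg_left hNR e3
      nlinarith
    have e3 : 13 * (d : ℝ) ^ 2 * N ^ 3 ≤ (D - 1) * N ^ 3 / 2 := by
      have e4 : 13 * (d : ℝ) ^ 2 ≤ (D - 1) / 2 := by linarith
      have e5 := mul_le_mul_of_nonneg_right e4 (show (0 : ℝ) ≤ (N : ℝ) ^ 3 by positivity)
      linarith
    have e4 : 0 ≤ (d : ℝ) ^ 2 * (2 * (D - 1) * N + 13 * D * N ^ 2) := by
      apply mul_nonneg (by positivity)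
      apply add_nonneg
      · apply mul_nonneg (by linarith) hN0.le
      · positivity
    linarith
  have hfin2 := mul_le_mul_of_nonneg_left hfin hq
  have hd2 : (0 : ℝ) ≤ (d : ℝ) ^ 2 := by positivity
  have hkey2 := mul_le_mul_of_nonneg_left hkey hd2
  nlinarith

end Pool.Agent.W277.UF
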