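import Mathlib

/-!
# Sums over triples of distinct points
-/

namespace Pool.Agent.W277.UF

open Finset

variable {α : Type*} [DecidableEq α]

/-- Sum over ordered triples of distinct points. -/
def T3 {M : Type*} [AddCommMonoid M] (P : Finset α) (F : α → α → α → M) : M :=
  ∑ x ∈ P, ∑ y ∈ P.erase x, ∑ z ∈ (P.erase x).erase y, F x y z

/-- Sum over ordered pairs of distinct points. -/
def T2 {M : Type*} [AddCommMonoid M] (P : Finset α) (F : α → α → M) : M :=
  ∑ x ∈ P, ∑ y ∈ P.erase x, F x y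

lemma T3_le {P : Finset α} {F G : α → α → α → ℤ}
    (h : ∀ x ∈ P, ∀ y ∈ P, ∀ z ∈ P, x ≠ y → y ≠ z → x ≠ z → F x y z ≤ G x y z) :
    T3 P F ≤ T3 P G := by
  refine Finset.sum_le_sum fun x hx => Finset.sum_le_sum fun y hy => Finset.sum_le_sum fun z hz => ?_
  have hy1 := Finset.mem_erase.mp hy
  have hz1 := Finset.mem_erase.mp hz
  have hz2 := Finset.mem_erase.mp hz1.2
  exact h x hx y hy1.2 z hz2.2 hy1.1.symm hz1.1.symm hz2.1.symm

lemma T3_add {P : Finset α} {F G : α → α → α → ℤ} :
    T3 P (fun x y z => F x y z + G x y z) = T3 P F + T3 P G := by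
  simp only [T3, Finset.sum_add_distrib]

lemma T2_swap {P : Finset α} (F : α → α → ℤ) : T2 P F = T2 P fun x y => F y x := by
  unfold T2
  apply Finset.sum_comm'
  intro x y
  simp only [Finset.mem_erase, ne_eq]
  tauto

lemma T2_const (P : Finset α) (c : ℤ) : T2 P (fun _ _ => c) = P.card * ((P.card : ℤ) - 1) * c := by
  unfold T2
  have h1 : ∀ x ∈ P, ∑ y ∈ P.erase x, c = ((P.card : ℤ) - 1) * c := by
    intro x hx
    have hpos : 1 ≤ P.card := Finset.card_pos.mpr ⟨x, hx⟩
    rw [Finset.sum_const, Finset.card_erase_of_mem hx, nsmul_eq_mul]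
    push_cast [Nat.cast_sub hpos]
    ring
  rw [Finset.sum_congr rfl h1, Finset.sum_const, nsmul_eq_mul]
  ring

/-- Summing a function of the first two points. -/
lemma T3_xy (P : Finset α) (F : α → α → ℤ) :
    T3 P (fun x y _ => F x y) = ((P.card : ℤ) - 2) * T2 P F := by
  unfold T3 T2
  rw [Finset.mul_sum]
  refine Finset.sum_congr rfl fun x hx => ?_
  rw [Finset.mul_sum]
  refine Finset.sum_congr rfl fun y hy => ?_
  have h1 : 1 ≤ P.card := Finset.card_pos.mpr ⟨x, hx⟩
  have h2 : 1 ≤ (P.erase x).card := Finset.card_pos.mpr ⟨y, hy⟩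
  rw [Finset.sum_const, Finset.card_erase_of_mem hy, nsmul_eq_mul]
  rw [Finset.card_erase_of_mem hx] at h2 ⊢
  have h3 : ((P.card - 1 - 1 : ℕ) : ℤ) = (P.card : ℤ) - 2 := by omega
  rw [h3]

lemma T3_xz (P : Finset α) (F : α → α → ℤ) :
    T3 P (fun x _ z => F x z) = ((P.card : ℤ) - 2) * T2 P F := by
  rw [← T3_xy]
  unfold T3
  refine Finset.sum_congr rfl fun x _ => ?_
  exact T2_swap (P := P.erase x) fun _ z => F x z

lemma T3_swap12 (P : Finset α) (F : α → α → α → ℤ) :
    T3 P F = T3 P fun x y z => F y x z := by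
  unfold T3
  rw [Finset.sum_comm' (t' := P) (s' := fun y => P.erase y) (by
    intro x y
    simp only [Finset.mem_erase, ne_eq]
    tauto)]
  refine Finset.sum_congr rfl fun x _ => Finset.sum_congr rfl fun y _ => ?_
  rw [Finset.erase_right_comm]

lemma T3_yz (P : Finset α) (F : α → α → ℤ) :
    T3 P (fun _ y z => F y z) = ((P.card : ℤ) - 2) * T2 P F := by
  rw [T3_swap12]
  exact T3_xz P F

lemma T3_const (P : Finset α) (c : ℤ) :
    T3 P (fun _ _ _ => c) = P.card * ((P.card : ℤ) - 1) * ((P.card : ℤ) - 2) * c := by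
  rw [T3_xy P fun _ _ => c, T2_const]
  ring

/-- The minimum of three integers. -/
def mn (a b c : ℤ) : ℤ := min a (min b c)

/-- Are three integers different? -/
def ne3 (a b c : ℤ) : ℤ := if a = b ∧ b = c then 0 else 1

lemma mn_add (a b c q : ℤ) : mn (a + q) (b + q) (c + q) = mn a b c + q := by
  unfold mn
  omega

lemma ne3_add (a b c q : ℤ) : ne3 (a + q) (b + q) (c + q) = ne3 a b c := by
  unfold ne3
  simp only [add_left_inj]

lemma ne3_le_one (a b c : ℤ) : ne3 a b c ≤ 1 := by
  unfold ne3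
  split_ifs <;> norm_num

lemma ne3_nonneg (a b c : ℤ) : 0 ≤ ne3 a b c := by
  unfold ne3
  split_ifs <;> norm_num

lemma ne3_le_sum {a b c : ℤ} (ha : 0 ≤ a) (hb : 0 ≤ b) (hc : 0 ≤ c) : ne3 a b c ≤ a + b + c := by
  unfold ne3
  split_ifs with h
  · omega
  · omega

/-- The estimates at a good place. -/
lemma good_est (P : Finset α) (o : α → α → ℤ)
    (ho : ∀ x ∈ P, ∀ y ∈ P, x ≠ y → 0 ≤ o x y) :
    T3 P (fun x y z => mn (o x y) (o y z) (o x z)) ≤ ((P.card : ℤ) - 2) * T2 P o ∧
    T3 P (fun x y z => ne3 (o x y) (o y z) (o x z)) ≤ 3 * (((P.card : ℤ) - 2) * T2 P o) := by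
  constructor
  · rw [← T3_xy]
    apply T3_le
    intro x _ y _ z _ _ _ _
    exact min_le_left _ _
  · have h1 : 3 * (((P.card : ℤ) - 2) * T2 P o) =
        T3 P (fun x y z => (o x y + o y z) + o x z) := by
      rw [T3_add, T3_add, T3_xy, T3_yz, T3_xz]
      ring
    rw [h1]
    apply T3_le
    intro x hx y hy z hz hxy hyz hxz
    exact ne3_le_sum (ho x hx y hy hxy) (ho y hy z hz hyz) (ho x hx z hz hxz)

section Classes

variable {β : Type*} [DecidableEq β] (cls : α → β)

/-- A class. -/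
def Pc (P : Finset α) (c : β) : Finset α := P.filter fun z => cls z = c

/-- The size of a class. -/
def nc (P : Finset α) (c : β) : ℕ := (Pc cls P c).card

/-- The energy of a class. -/
def Sc (P : Finset α) (o : α → α → ℤ) (c : β) : ℤ := T2 (Pc cls P c) o

variable {cls}

omit [DecidableEq α] in
lemma sum_classes (P : Finset α) (F : α → ℤ) :
    ∑ x ∈ P, F x = ∑ c ∈ P.image cls, ∑ x ∈ Pc cls P c, F x := by
  unfold Pc
  exact (Finset.sum_fiberwise_of_maps_to (fun x hx => Finset.mem_image_of_mem cls hx) F).symm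

omit [DecidableEq α] in
lemma sum_nc (P : Finset α) : ∑ c ∈ P.image cls, nc cls P c = P.card := by
  unfold nc Pc
  exact (Finset.card_eq_sum_card_fiberwise fun x hx => Finset.mem_image_of_mem cls hx).symm

/-- The pair sum splits over the classes. -/
lemma T2_classes {P : Finset α} {o : α → α → ℤ}
    (h0 : ∀ x ∈ P, ∀ y ∈ P, x ≠ y → cls x ≠ cls y → o x y = 0) (g : β → ℤ) :
    T2 P (fun x y => g (cls x) * o x y) = ∑ c ∈ P.image cls, g c * Sc cls P o c := by
  unfold T2
  rw [sum_classes (cls := cls)]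
  refine Finset.sum_congr rfl fun c _ => ?_
  unfold Sc T2
  rw [Finset.mul_sum]
  refine Finset.sum_congr rfl fun x hx => ?_
  obtain ⟨hxP, hxc⟩ := Finset.mem_filter.mp hx
  rw [Finset.mul_sum]
  simp only [hxc]
  symm
  apply Finset.sum_subset
  · intro y hy
    obtain ⟨h1, h2⟩ := Finset.mem_erase.mp hy
    exact Finset.mem_erase.mpr ⟨h1, (Finset.mem_filter.mp h2).1⟩
  · intro y hy hy2
    obtain ⟨h1, h2⟩ := Finset.mem_erase.mp hy
    have h3 : cls y ≠ c := by
      intro h
      exact hy2 (Finset.mem_erase.mpr ⟨h1, Finset.mem_filter.mpr ⟨h2, h⟩⟩)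
    rw [h0 x hxP y h2 h1.symm (by rw [hxc]; exact h3.symm), mul_zero]

/-- The sum of the minima. -/
lemma min_est {P : Finset α} {o : α → α → ℤ}
    (h0 : ∀ x ∈ P, ∀ y ∈ P, x ≠ y → cls x ≠ cls y → o x y = 0) :
    T3 P (fun x y z => mn (o x y) (o y z) (o x z)) ≤
      ∑ c ∈ P.image cls, ((nc cls P c : ℤ) - 2) * Sc cls P o c := by
  rw [← T2_classes h0 (fun c => (nc cls P c : ℤ) - 2)]
  have h1 : T3 P (fun x y z => mn (o x y) (o y z) (o x z)) ≤
      T3 P (fun x y z => if cls z = cls x then o x y else 0) := by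
    apply T3_le
    intro x hx y hy z hz hxy hyz hxz
    split_ifs with h
    · exact min_le_left _ _
    · have h2 := h0 x hx z hz hxz (fun h' => h h'.symm)
      unfold mn
      rw [h2]
      exact (min_le_right _ _).trans (min_le_right _ _)
  refine h1.trans ?_
  unfold T3 T2
  refine Finset.sum_le_sum fun x hx => Finset.sum_le_sum fun y hy => ?_
  obtain ⟨hy1, hy2⟩ := Finset.mem_erase.mp hy
  by_cases hc : cls x = cls y
  · rw [← Finset.sum_filter, Finset.sum_const, nsmul_eq_mul]
    apply le_of_eq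
    congr 1
    have h2 : ((P.erase x).erase y).filter (fun z => cls z = cls x) =
        ((Pc cls P (cls x)).erase x).erase y := by
      unfold Pc
      rw [Finset.filter_erase, Finset.filter_erase]
    have hxm : x ∈ Pc cls P (cls x) := Finset.mem_filter.mpr ⟨hx, rfl⟩
    have hym : y ∈ (Pc cls P (cls x)).erase x :=
      Finset.mem_erase.mpr ⟨hy1, Finset.mem_filter.mpr ⟨hy2, hc.symm⟩⟩
    have h3 : 1 ≤ ((Pc cls P (cls x)).erase x).card := Finset.card_pos.mpr ⟨y, hym⟩
    rw [h2, Finset.card_erase_of_mem hym]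
    rw [Finset.card_erase_of_mem hxm] at h3 ⊢
    unfold nc
    omega
  · simp only [h0 x hx y hy2 hy1.symm hc, mul_zero, ite_self, Finset.sum_const_zero, le_refl]

/-- The sum of the indicator. -/
lemma ne_est {P : Finset α} {o : α → α → ℤ}
    (h0 : ∀ x ∈ P, ∀ y ∈ P, x ≠ y → cls x ≠ cls y → o x y = 0) :
    T3 P (fun x y z => ne3 (o x y) (o y z) (o x z)) ≤
      ∑ c ∈ P.image cls, (nc cls P c : ℤ) ^ 2 * (3 * P.card - 2 * nc cls P c) := by
  set I : α → α → ℤ := fun x y => if cls x = cls y then 1 else 0 with hI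
  have hIn : ∀ x ∈ P, ∑ y ∈ P, I x y = nc cls P (cls x) := by
    intro x _
    simp only [hI]
    rw [← Finset.sum_filter, Finset.sum_const, nsmul_eq_mul, mul_one]
    unfold nc Pc
    congr 2
    ext z
    simp only [Finset.mem_filter]
    tauto
  set δ : α → α → α → ℤ := fun x y z => I x y + I y z + I x z - 2 * (I x y * I y z) with hδ
  have hδ0 : ∀ x y z, 0 ≤ δ x y z := by
    intro x y z
    simp only [hδ, hI]
    by_cases h1 : cls x = cls y
    · by_cases h2 : cls y = cls z
      · have h3 : cls x = cls z := h1.trans h2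
        simp [h1, h2]
      · have h3 : cls x ≠ cls z := fun h => h2 (h1.symm.trans h)
        simp [h1, h2]
    · simp only [h1, if_false]
      split_ifs <;> norm_num
  have hle : T3 P (fun x y z => ne3 (o x y) (o y z) (o x z)) ≤ T3 P δ := by
    apply T3_le
    intro x hx y hy z hz hxy hyz hxz
    by_cases h1 : cls x = cls y
    · refine (ne3_le_one _ _ _).trans ?_
      simp only [hδ, hI]
      by_cases h2 : cls y = cls z
      · simp [h1, h2]
      · simp [h1, h2]
    · by_cases h2 : cls y = cls z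
      · refine (ne3_le_one _ _ _).trans ?_
        have h3 : cls x ≠ cls z := fun h => h1 (h.trans h2.symm)
        simp only [hδ, hI, if_neg h1, if_pos h2, if_neg h3]
        norm_num
      · by_cases h3 : cls x = cls z
        · refine (ne3_le_one _ _ _).trans ?_
          simp only [hδ, hI, if_neg h1, if_neg h2, if_pos h3]
          norm_num
        · rw [h0 x hx y hy hxy h1, h0 y hy z hz hyz h2, h0 x hx z hz hxz h3]
          refine le_trans (le_of_eq ?_) (hδ0 x y z)
          simp [ne3]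
  have hfull : T3 P δ ≤ ∑ x ∈ P, ∑ y ∈ P, ∑ z ∈ P, δ x y z := by
    unfold T3
    refine Finset.sum_le_sum fun x _ => ?_
    refine le_trans (Finset.sum_le_sum fun y _ => ?_) (Finset.sum_le_sum_of_subset_of_nonneg
      (Finset.erase_subset x P) fun y _ _ => Finset.sum_nonneg fun z _ => hδ0 x y z)
    exact Finset.sum_le_sum_of_subset_of_nonneg
      ((Finset.erase_subset _ _).trans (Finset.erase_subset _ _)) fun z _ _ => hδ0 x y z
  refine (hle.trans hfull).trans (le_of_eq ?_)
  have hcomp : ∀ x ∈ P, ∑ y ∈ P, ∑ z ∈ P, δ x y z =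
      P.card * nc cls P (cls x) + ∑ y ∈ P, (nc cls P (cls y) : ℤ) + P.card * nc cls P (cls x) -
        2 * (nc cls P (cls x) : ℤ) ^ 2 := by
    intro x hx
    simp only [hδ]
    simp only [Finset.sum_sub_distrib, Finset.sum_add_distrib]
    congr 1
    · congr 1
      · congr 1
        · simp only [Finset.sum_const, nsmul_eq_mul]
          rw [← Finset.mul_sum, hIn x hx]
        · exact Finset.sum_congr rfl fun y hy => hIn y hy
      · simp only [Finset.sum_const, nsmul_eq_mul]
        rw [hIn x hx]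
    · have h1 : ∀ y ∈ P, ∑ z ∈ P, 2 * (I x y * I y z) = 2 * (I x y * nc cls P (cls x)) := by
        intro y hy
        rw [← Finset.mul_sum, ← Finset.mul_sum, hIn y hy]
        simp only [hI]
        split_ifs with h
        · rw [h]
        · ring
      rw [Finset.sum_congr rfl h1, ← Finset.mul_sum, ← Finset.sum_mul, hIn x hx]
      ring
  rw [Finset.sum_congr rfl hcomp]
  have hs1 : ∑ x ∈ P, ((nc cls P (cls x) : ℤ) * (3 * P.card - 2 * nc cls P (cls x))) =
      ∑ c ∈ P.image cls, (nc cls P c : ℤ) ^ 2 * (3 * P.card - 2 * nc cls P c) := by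
    rw [sum_classes (cls := cls)]
    refine Finset.sum_congr rfl fun c _ => ?_
    have h1 : ∀ x ∈ Pc cls P c, ((nc cls P (cls x) : ℤ) * (3 * P.card - 2 * nc cls P (cls x))) =
        (nc cls P c : ℤ) * (3 * P.card - 2 * nc cls P c) := by
      intro x hx
      rw [(Finset.mem_filter.mp hx).2]
    rw [Finset.sum_congr rfl h1, Finset.sum_const, nsmul_eq_mul]
    unfold nc
    ring
  rw [← hs1]
  simp only [Finset.sum_sub_distrib, Finset.sum_add_distrib, Finset.sum_const, nsmul_eq_mul]
  have h2 : ∑ x ∈ P, ((nc cls P (cls x) : ℤ) * (3 * P.card - 2 * nc cls P (cls x))) =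
      3 * (P.card * ∑ x ∈ P, (nc cls P (cls x) : ℤ)) - ∑ x ∈ P, 2 * (nc cls P (cls x) : ℤ) ^ 2 := by
    rw [Finset.mul_sum, Finset.mul_sum, ← Finset.sum_sub_distrib]
    exact Finset.sum_congr rfl fun x _ => by ring
  rw [h2, Finset.mul_sum]
  ring

end Classes

end Pool.Agent.W277.UF
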