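import Mathlib
import Pool.Agent.W277.UF.E5
import Pool.Agent.W277.UF.E6
import Pool.Agent.W277.UF.E7

/-!
# The local inequality
-/

namespace Pool.Agent.W277.UF

open Finset Polynomial Pool.Agent.W277.UB PlaceData Pool.Agent.W277.UC

variable {k K : Type*} [Field k] [Field K] [Algebra k K]
variable {Q : PlaceData k K}

lemma floor_sum (n M : ℕ) (hM : 1 ≤ M) :
    (n : ℝ) ^ 2 / M - 2 * n ≤ 2 * ((∑ i ∈ range n, ((i / M : ℕ) : ℤ) : ℤ) : ℝ) := by
  have h1 : (n : ℤ) ^ 2 + n - 2 * n * M ≤ 2 * M * ∑ i ∈ range n, ((i / M : ℕ) : ℤ) := by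
    induction n with
    | zero => simp
    | succ n ih =>
      rw [Finset.sum_range_succ, mul_add]
      have h2 : (n : ℤ) - (M - 1) ≤ M * ((n / M : ℕ) : ℤ) := by
        have h3 := Nat.div_add_mod n M
        have h4 := Nat.mod_lt n (show 0 < M by omega)
        have h5 : ((M * (n / M) + n % M : ℕ) : ℤ) = n := by rw [h3]
        push_cast at h5 ⊢
        have h6 : (n : ℤ) % M ≤ M - 1 := by
          have : ((n % M : ℕ) : ℤ) < M := by exact_mod_cast h4
          push_cast at this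
          omega
        linarith
      push_cast at h2 ih ⊢
      nlinarith
  have hM0 : (0 : ℝ) < M := by exact_mod_cast hM
  have h2 : (n : ℝ) ^ 2 + n - 2 * n * M ≤ 2 * M * ((∑ i ∈ range n, ((i / M : ℕ) : ℤ) : ℤ) : ℝ) := by
    exact_mod_cast h1
  have hn : (0 : ℝ) ≤ n := Nat.cast_nonneg n
  rw [sub_le_iff_le_add, div_le_iff₀ hM0]
  nlinarith

/-- The quantity to be summed over the places. -/
noncomputable def JJ [DecidableEq K] (Q : PlaceData k K) (d B : ℕ) (A : K) (P : Finset K)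
    (v : Q.Pl) : ℝ :=
  ((B : ℝ) * d - 1) * (((T3 P (fun x y z => -mn (Q.ord v (x - y)) (Q.ord v (y - z)) (Q.ord v (x - z)) -
      ne3 (Q.ord v (x - y)) (Q.ord v (y - z)) (Q.ord v (x - z))) : ℤ) : ℝ) -
    (P.card : ℝ) * (P.card - 1) * (P.card - 2) * ((Q.ord v A : ℝ) / ((d : ℝ) - 1))) +
  13 * ((B : ℝ) * d) * P.card * (((T2 P (fun x y => Q.ord v (x - y)) : ℤ) : ℝ) +
    (P.card : ℝ) * (P.card - 1) * ((Q.ord v A : ℝ) / ((d : ℝ) - 1)))

lemma T3_shift [DecidableEq K] (P : Finset K) (e : K → K → ℤ) (q : ℤ) :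
    T3 P (fun x y z => -mn (e x y) (e y z) (e x z) - ne3 (e x y) (e y z) (e x z)) =
      P.card * ((P.card : ℤ) - 1) * ((P.card : ℤ) - 2) * q -
        T3 P (fun x y z => mn (e x y + q) (e y z + q) (e x z + q)) -
        T3 P (fun x y z => ne3 (e x y + q) (e y z + q) (e x z + q)) := by
  rw [← T3_const P q]
  have h1 : (fun x y z => -mn (e x y) (e y z) (e x z) - ne3 (e x y) (e y z) (e x z)) =
      fun x y z => (q - mn (e x y + q) (e y z + q) (e x z + q)) -
        ne3 (e x y + q) (e y z + q) (e x z + q) := by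
    funext x y z
    rw [mn_add, ne3_add]
    ring
  rw [h1]
  simp only [T3, Finset.sum_sub_distrib]

lemma T2_shift [DecidableEq K] (P : Finset K) (e : K → K → ℤ) (q : ℤ) :
    T2 P e = T2 P (fun x y => e x y + q) - P.card * ((P.card : ℤ) - 1) * q := by
  rw [← T2_const P q]
  unfold T2
  simp only [Finset.sum_add_distrib]
  ring

/-- The local quantity in terms of the normalised orders. -/
lemma JJ_eq [DecidableEq K] (d B : ℕ) (A : K) (P : Finset K) (v : Q.Pl) (q : ℤ) :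
    JJ Q d B A P v = ((B : ℝ) * d - 1) * ((((q : ℝ) - (Q.ord v A : ℝ) / ((d : ℝ) - 1)) *
      ((P.card : ℝ) * (P.card - 1) * (P.card - 2))) -
      ((T3 P (fun x y z => mn (Q.ord v (x - y) + q) (Q.ord v (y - z) + q) (Q.ord v (x - z) + q)) :
        ℤ) : ℝ) -
      ((T3 P (fun x y z => ne3 (Q.ord v (x - y) + q) (Q.ord v (y - z) + q) (Q.ord v (x - z) + q)) :
        ℤ) : ℝ)) -
      13 * ((B : ℝ) * d) * P.card * ((P.card : ℝ) * (P.card - 1) *
        ((q : ℝ) - (Q.ord v A : ℝ) / ((d : ℝ) - 1)) -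
        ((T2 P (fun x y => Q.ord v (x - y) + q) : ℤ) : ℝ)) := by
  unfold JJ
  rw [T3_shift P (fun x y => Q.ord v (x - y)) q, T2_shift P (fun x y => Q.ord v (x - y)) q]
  push_cast
  ring

/-- Good places. -/
lemma JJ_good [DecidableEq K] {d B : ℕ} {A : K} {P : Finset K} (v : Q.Pl) (q : ℤ)
    (hd : 2 ≤ d) (hB : 1 ≤ B) (hP : 2 ≤ P.card)
    (hq : ∀ x ∈ P, ∀ y ∈ P, x ≠ y → -q ≤ Q.ord v (x - y))
    (hqA : ((d : ℤ) - 1) * q ≤ Q.ord v A) : 0 ≤ JJ Q d B A P v := by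
  rw [JJ_eq d B A P v q]
  obtain ⟨g1, g2⟩ := good_est P (fun x y => Q.ord v (x - y) + q) (by
    intro x hx y hy hxy
    have := hq x hx y hy hxy
    linarith)
  have hT2 : 0 ≤ T2 P (fun x y => Q.ord v (x - y) + q) := by
    unfold T2
    refine Finset.sum_nonneg fun x hx => Finset.sum_nonneg fun y hy => ?_
    obtain ⟨h1, h2⟩ := Finset.mem_erase.mp hy
    have := hq x hx y h2 h1.symm
    linarith
  set q' : ℝ := (q : ℝ) - (Q.ord v A : ℝ) / ((d : ℝ) - 1) with hq'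
  have hd1 : (0 : ℝ) < (d : ℝ) - 1 := by
    have : (2 : ℝ) ≤ d := by exact_mod_cast hd
    linarith
  have hq'0 : q' ≤ 0 := by
    rw [hq', sub_nonpos, le_div_iff₀ hd1]
    have : ((((d : ℤ) - 1) * q : ℤ) : ℝ) ≤ Q.ord v A := by exact_mod_cast hqA
    push_cast at this
    linarith
  set N : ℝ := (P.card : ℝ) with hN
  have hN2 : (2 : ℝ) ≤ N := by
    rw [hN]
    exact_mod_cast hP
  set D : ℝ := (B : ℝ) * d with hD
  have hD1 : 1 ≤ D := by
    have h1 : (1 : ℝ) ≤ B := by exact_mod_cast hB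
    have h2 : (1 : ℝ) ≤ d := by linarith
    nlinarith
  have g1' : ((T3 P (fun x y z => mn (Q.ord v (x - y) + q) (Q.ord v (y - z) + q)
      (Q.ord v (x - z) + q)) : ℤ) : ℝ) ≤ (N - 2) * ((T2 P (fun x y => Q.ord v (x - y) + q) : ℤ) : ℝ) := by
    rw [hN]
    exact_mod_cast g1
  have g2' : ((T3 P (fun x y z => ne3 (Q.ord v (x - y) + q) (Q.ord v (y - z) + q)
      (Q.ord v (x - z) + q)) : ℤ) : ℝ) ≤
      3 * ((N - 2) * ((T2 P (fun x y => Q.ord v (x - y) + q) : ℤ) : ℝ)) := by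
    rw [hN]
    exact_mod_cast g2
  have hT2' : (0 : ℝ) ≤ ((T2 P (fun x y => Q.ord v (x - y) + q) : ℤ) : ℝ) := by exact_mod_cast hT2
  set W : ℝ := ((T2 P (fun x y => Q.ord v (x - y) + q) : ℤ) : ℝ) with hW
  set T1 : ℝ := ((T3 P (fun x y z => mn (Q.ord v (x - y) + q) (Q.ord v (y - z) + q)
      (Q.ord v (x - z) + q)) : ℤ) : ℝ) with hT1
  set T4 : ℝ := ((T3 P (fun x y z => ne3 (Q.ord v (x - y) + q) (Q.ord v (y - z) + q)
      (Q.ord v (x - z) + q)) : ℤ) : ℝ) with hT4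
  have h1 : (D - 1) * (q' * (N * (N - 1) * (N - 2)) - T1 - T4) ≥
      (D - 1) * (q' * (N * (N - 1) * (N - 2)) - 4 * ((N - 2) * W)) :=
    mul_le_mul_of_nonneg_left (by linarith) (by linarith)
  have h2 : (D - 1) * (q' * (N * (N - 1) * (N - 2)) - 4 * ((N - 2) * W)) -
      13 * D * N * (N * (N - 1) * q' - W) =
      (-q') * (N * (N - 1) * (13 * D * N - (D - 1) * (N - 2))) +
        W * (13 * D * N - 4 * ((D - 1) * (N - 2))) := by ring
  have h3 : (D - 1) * (N - 2) ≤ D * N := mul_le_mul (by linarith) (by linarith) (by linarith)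
    (by linarith)
  have h4 : 0 ≤ D * N := by positivity
  have h5 : 0 ≤ (-q') * (N * (N - 1) * (13 * D * N - (D - 1) * (N - 2))) := by
    apply mul_nonneg (by linarith)
    apply mul_nonneg
    · apply mul_nonneg <;> linarith
    · linarith
  have h6 : 0 ≤ W * (13 * D * N - 4 * ((D - 1) * (N - 2))) := by
    apply mul_nonneg hT2'
    linarith
  linarith

/-- Bad places. -/
lemma JJ_bad [CharZero k] [DecidableEq K] {e d B κ : ℕ} {A : K} {f g : K[X]} {P : Finset K}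
    (hS : StabA e d A f P) (hd : 5 ≤ d) (he : 2 * e + 4 ≤ d)
    (hgd : g.natDegree = B) (hg : ∀ z ∈ P, g.eval z ∈ P)
    (v : Q.Pl) (hgl : ((d : ℤ) - 1) * Q.ord v g.leadingCoeff = ((B : ℤ) - 1) * Q.ord v A)
    (hκ : (κ : ℤ) * ((d : ℤ) - 1) = B * d - 1)
    (hB : 26 * d ^ 2 + 1 ≤ B * d) (hNN : 2 * d ^ 2 * (26 * (B * d) + 3) ≤ P.card)
    (q : ℤ) (hq : ∀ x ∈ P, ∀ y ∈ P, x ≠ y → -q ≤ Q.ord v (x - y))
    {za zb : K} (hza : za ∈ P) (hzb : zb ∈ P)
    (hab : za ≠ zb) (hqab : Q.ord v (za - zb) = -q) (hQ : Q.ord v A < ((d : ℤ) - 1) * q) :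
    ((B : ℝ) * d - 1) * (P.card : ℝ) ^ 3 * ((q : ℝ) - (Q.ord v A : ℝ) / ((d : ℝ) - 1)) -
      d ^ 2 * (((B : ℝ) * d - 1) * (P.card : ℝ) ^ 3 * (if Q.ord v A = 0 then 0 else 1)) ≤
      d ^ 2 * JJ Q d B A P v := by
  classical
  have hB1 : 1 ≤ B := by
    rcases Nat.eq_zero_or_pos B with rfl | h
    · simp at hB
    · exact h
  have hBd1 : 1 ≤ B * d := by
    have : 0 < B * d := Nat.mul_pos hB1 (by omega)
    exact this
  obtain ⟨cls, m, c1, c2, c3, c4, c5⟩ := local_data (Q := Q) hS (by omega) (by omega) hgd hB1 hg v hgl q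
    (by
      intro x hx y hy hne
      exact hq x hx y hy (sub_ne_zero.mp hne)) hza hzb hab hqab hQ
  set o : K → K → ℤ := fun x y => Q.ord v (x - y) + q with ho
  have ho0 : ∀ x ∈ P, ∀ y ∈ P, x ≠ y → 0 ≤ o x y := by
    intro x hx y hy hxy
    have := hq x hx y hy hxy
    simp only [ho]
    linarith
  have hcl0 : ∀ x ∈ P, ∀ y ∈ P, x ≠ y → cls x ≠ cls y → o x y = 0 := by
    intro x hx y hy hxy hne
    have h1 := hq x hx y hy hxy
    have h2 : ¬ -q < Q.ord v (x - y) := fun h => hne ((c1 x hx y hy hxy).mpr h)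
    simp only [ho]
    omega
  set q' : ℝ := (q : ℝ) - (Q.ord v A : ℝ) / ((d : ℝ) - 1) with hq'
  have hd1 : (0 : ℝ) < (d : ℝ) - 1 := by
    have : (5 : ℝ) ≤ d := by exact_mod_cast hd
    linarith
  have hq'0 : 0 < q' := by
    rw [hq', sub_pos, div_lt_iff₀ hd1]
    have : ((Q.ord v A : ℤ) : ℝ) < ((((d : ℤ) - 1) * q : ℤ) : ℝ) := by exact_mod_cast hQ
    push_cast at this
    linarith
  set t : ℤ := κ * (((d : ℤ) - 1) * q - Q.ord v A) with ht
  have ht1 : ((d : ℤ) - 1) * t = ((B : ℤ) * d - 1) * (((d : ℤ) - 1) * q - Q.ord v A) := by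
    rw [ht, ← hκ]
    ring
  have htR : (t : ℝ) = ((B : ℝ) * d - 1) * q' := by
    have h1 : (((d : ℤ) - 1) * t : ℤ) = (((B : ℤ) * d - 1) * (((d : ℤ) - 1) * q - Q.ord v A) : ℤ) := ht1
    have h2 : ((d : ℝ) - 1) * t = ((B : ℝ) * d - 1) * (((d : ℝ) - 1) * q - Q.ord v A) := by
      exact_mod_cast h1
    have h3 : ((d : ℝ) - 1) * t = ((d : ℝ) - 1) * (((B : ℝ) * d - 1) * q') := by
      rw [h2, hq']
      field_simp
    exact mul_left_cancel₀ hd1.ne' h3
  have hBdR : (1 : ℝ) ≤ (B : ℝ) * d := by exact_mod_cast hBd1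
  have ht0 : (0 : ℝ) ≤ t := by
    rw [htR]
    apply mul_nonneg (by linarith) hq'0.le
  have hmain := comb_ineq (P.image cls) (nc cls P) m P.card d e B (sum_nc P)
    (by
      intro c hc
      obtain ⟨x, hx, rfl⟩ := Finset.mem_image.mp hc
      exact c2 x hx) (c3 _) (c4 _) hd he hB hNN q' hq'0.le (fun c => ((Sc cls P o c : ℤ) : ℝ))
    (by
      intro c _
      have h1 : 0 ≤ Sc cls P o c := by
        unfold Sc T2
        refine Finset.sum_nonneg fun x hx => Finset.sum_nonneg fun y hy => ?_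
        obtain ⟨h1, h2⟩ := Finset.mem_erase.mp hy
        exact ho0 x (Finset.mem_filter.mp hx).1 y (Finset.mem_filter.mp h2).1 h1.symm
      exact_mod_cast h1)
    (by
      intro c hc
      obtain ⟨x0, hx0, hx0c⟩ := Finset.mem_image.mp hc
      have hm1 : 1 ≤ m c := by
        rw [← hx0c]
        exact c2 x0 hx0
      have h1 := c5 t ht1 c (Pc cls P c) (Finset.filter_subset _ _) (by
        intro x hx
        exact (Finset.mem_filter.mp hx).2)
      have h2 : ∑ x ∈ Pc cls P c, ∑ y ∈ (Pc cls P c).erase x, (Q.ord v (x - y) + q) =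
          Sc cls P o c := rfl
      rw [h2] at h1
      have h3 : ((2 * t * ∑ i ∈ range (Pc cls P c).card, ((i / (B * m c) : ℕ) : ℤ) : ℤ) : ℝ) ≤
          ((Sc cls P o c : ℤ) : ℝ) := by exact_mod_cast h1
      refine le_trans ?_ h3
      have h4 := floor_sum (Pc cls P c).card (B * m c) (Nat.mul_pos hB1 hm1)
      have h5 := mul_le_mul_of_nonneg_left h4 ht0
      have h6 : ((B : ℝ) * d - 1) * q' * ((nc cls P c : ℝ) ^ 2 / (B * m c) - 2 * nc cls P c) =
          t * (((Pc cls P c).card : ℝ) ^ 2 / ((B * m c : ℕ) : ℝ) - 2 * (Pc cls P c).card) := by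
        rw [htR]
        unfold nc
        push_cast
        ring
      rw [h6]
      refine h5.trans (le_of_eq ?_)
      push_cast
      ring)
  -- compare with `JJ`
  rw [JJ_eq d B A P v q]
  have hmin := min_est (cls := cls) (P := P) (o := o) hcl0
  have hne := ne_est (cls := cls) (P := P) (o := o) hcl0
  have hT2 : T2 P o = ∑ c ∈ P.image cls, Sc cls P o c := by
    have h1 := T2_classes (cls := cls) (P := P) (o := o) hcl0 (fun _ => 1)
    simpa using h1
  have hmin' : ((T3 P (fun x y z => mn (o x y) (o y z) (o x z)) : ℤ) : ℝ) ≤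
      ∑ c ∈ P.image cls, ((nc cls P c : ℝ) - 2) * ((Sc cls P o c : ℤ) : ℝ) := by
    exact_mod_cast hmin
  have hne' : ((T3 P (fun x y z => ne3 (o x y) (o y z) (o x z)) : ℤ) : ℝ) ≤
      ∑ c ∈ P.image cls, (nc cls P c : ℝ) ^ 2 * (3 * P.card - 2 * nc cls P c) := by
    exact_mod_cast hne
  have hT2' : ((T2 P o : ℤ) : ℝ) = ∑ c ∈ P.image cls, ((Sc cls P o c : ℤ) : ℝ) := by
    exact_mod_cast hT2
  have hne0 : ((T3 P (fun x y z => ne3 (o x y) (o y z) (o x z)) : ℤ) : ℝ) ≤ (P.card : ℝ) ^ 3 := by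
    have hN2 : 2 ≤ P.card := by
      have := Finset.one_lt_card.mpr ⟨za, hza, zb, hzb, hab⟩
      omega
    have h1 : T3 P (fun x y z => ne3 (o x y) (o y z) (o x z)) ≤ T3 P (fun _ _ _ => 1) := by
      apply T3_le
      intro x _ y _ z _ _ _ _
      exact ne3_le_one _ _ _
    rw [T3_const] at h1
    have hNZ : (2 : ℤ) ≤ P.card := by exact_mod_cast hN2
    have h2 : (P.card : ℤ) * ((P.card : ℤ) - 1) * ((P.card : ℤ) - 2) * 1 ≤ (P.card : ℤ) ^ 3 := by
      nlinarith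
    exact_mod_cast h1.trans h2
  simp only [ho] at hmin' hne' hT2' hne0 hmain
  rw [hT2']
  set T1 : ℝ := ((T3 P (fun x y z => mn (Q.ord v (x - y) + q) (Q.ord v (y - z) + q)
      (Q.ord v (x - z) + q)) : ℤ) : ℝ) with hT1
  set T4 : ℝ := ((T3 P (fun x y z => ne3 (Q.ord v (x - y) + q) (Q.ord v (y - z) + q)
      (Q.ord v (x - z) + q)) : ℤ) : ℝ) with hT4
  set N : ℝ := (P.card : ℝ) with hN
  set X1 := ∑ c ∈ P.image cls, ((nc cls P c : ℝ) - 2) *
    ((Sc cls P (fun x y => Q.ord v (x - y) + q) c : ℤ) : ℝ) with hX1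
  set X2 := ∑ c ∈ P.image cls, (nc cls P c : ℝ) ^ 2 * (3 * N - 2 * nc cls P c) with hX2
  set X3 := ∑ c ∈ P.image cls, ((Sc cls P (fun x y => Q.ord v (x - y) + q) c : ℤ) : ℝ) with hX3
  set D : ℝ := (B : ℝ) * d with hD
  have hd2 : (0 : ℝ) ≤ (d : ℝ) ^ 2 := by positivity
  have hD0 : 0 ≤ D - 1 := by linarith
  have hX20 : 0 ≤ X2 := by
    rw [hX2]
    refine Finset.sum_nonneg fun c hc => ?_
    apply mul_nonneg (sq_nonneg _)
    have h1 : (nc cls P c : ℝ) ≤ N := by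
      have : nc cls P c ≤ P.card := Finset.card_le_card (Finset.filter_subset _ _)
      rw [hN]
      exact_mod_cast this
    have h2 : (0 : ℝ) ≤ nc cls P c := Nat.cast_nonneg _
    linarith
  by_cases hA0 : Q.ord v A = 0
  · rw [if_pos hA0, mul_zero, mul_zero, sub_zero]
    refine hmain.trans ?_
    apply mul_le_mul_of_nonneg_left _ hd2
    -- here `q' = q ≥ 1`
    have hq1 : 1 ≤ q' := by
      have h1 : q' = q := by
        rw [hq', hA0]
        simp
      rw [h1]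
      have h2 : (0 : ℝ) < q := by rw [← h1]; exact hq'0
      have h3 : 0 < q := by exact_mod_cast h2
      exact_mod_cast h3
    have h1 : (D - 1) * (q' * (N * (N - 1) * (N - 2)) - T1 - T4) ≥
        (D - 1) * (q' * (N * (N - 1) * (N - 2)) - X1 - X2) :=
      mul_le_mul_of_nonneg_left (by linarith) hD0
    have h2 : (D - 1) * X2 ≤ q' * ((D - 1) * X2) :=
      le_mul_of_one_le_left (mul_nonneg hD0 hX20) hq1
    linarith
  · rw [if_neg hA0, mul_one]
    have h1 : (D - 1) * (q' * (N * (N - 1) * (N - 2)) - T1 - T4) ≥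
        (D - 1) * (q' * (N * (N - 1) * (N - 2)) - X1 - N ^ 3) :=
      mul_le_mul_of_nonneg_left (by linarith) hD0
    have h2 : 0 ≤ q' * ((D - 1) * X2) := mul_nonneg hq'0.le (mul_nonneg hD0 hX20)
    have h3 : (D - 1) * (q' * (N * (N - 1) * (N - 2)) - X1) - q' * ((D - 1) * X2) -
        13 * D * N * (N * (N - 1) * q' - X3) ≤
        (D - 1) * (q' * (N * (N - 1) * (N - 2)) - T1 - T4) -
          13 * D * N * (N * (N - 1) * q' - X3) + (D - 1) * N ^ 3 := by
      linarith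
    have h4 := mul_le_mul_of_nonneg_left h3 hd2
    have h5 := hmain.trans h4
    linarith

end Pool.Agent.W277.UF
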