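import Mathlib
import Pool.Agent.W277.UF.E8

/-!
# The abc inequality for triples and the global inequality
-/

namespace Pool.Agent.W277.UF

open Finset Polynomial Pool.Agent.W277.UB PlaceData Pool.Agent.W277.UC

variable {k K : Type*} [Field k] [Field K] [Algebra k K]
variable {Q : PlaceData k K}

lemma W_eq (D : Derivation k K K) {a b : K} (hb : b ≠ 0) :
    b * D a - a * D b = b ^ 2 * D (a / b) := by
  have h1 : D a = D (a / b * b) := by rw [div_mul_cancel₀ a hb]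
  rw [h1, Derivation.leibniz, smul_eq_mul, smul_eq_mul]
  field_simp
  ring

lemma G_D0 {v : Q.Pl} {u : K} (h : Q.G v 0 u) : Q.G v (-Q.loss v) (Q.D u) := by
  have h1 := G_D' (Q := Q) 1 h
  simpa using h1

lemma G_D1 {v : Q.Pl} (u : K) : Q.G v (Q.ord v u - 1 - Q.loss v) (Q.D u) := by
  have h1 := G_D (Q := Q) (v := v) (x := u) 1 G_self
  simpa using h1

/-- The order of the Wronskian of two of three elements with sum zero. -/
lemma abc_place (v : Q.Pl) {a b : K} (ha : a ≠ 0) (hb : b ≠ 0) (hab : a + b ≠ 0) :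
    Q.G v (Q.ord v a + Q.ord v b + Q.ord v (a + b) - mn (Q.ord v a) (Q.ord v b) (Q.ord v (a + b)) -
      ne3 (Q.ord v a) (Q.ord v b) (Q.ord v (a + b)) - Q.loss v) (b * Q.D a - a * Q.D b) := by
  have u1 : min (Q.ord v a) (Q.ord v b) ≤ Q.ord v (a + b) :=
    Q.ord_add v a b _ ha hb hab (min_le_left _ _) (min_le_right _ _)
  have u2 : min (Q.ord v a) (Q.ord v (a + b)) ≤ Q.ord v b := by
    have h := Q.ord_add v (a + b) (-a) (min (Q.ord v a) (Q.ord v (a + b))) hab (neg_ne_zero.mpr ha)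
      (by simpa using hb) (min_le_right _ _) (by rw [ord_neg ha]; exact min_le_left _ _)
    have h2 : a + b + -a = b := by ring
    rwa [h2] at h
  have u3 : min (Q.ord v b) (Q.ord v (a + b)) ≤ Q.ord v a := by
    have h := Q.ord_add v (a + b) (-b) (min (Q.ord v b) (Q.ord v (a + b))) hab (neg_ne_zero.mpr hb)
      (by simpa using ha) (min_le_right _ _) (by rw [ord_neg hb]; exact min_le_left _ _)
    have h2 : a + b + -b = a := by ring
    rwa [h2] at h
  have gsq : ∀ x : K, x ≠ 0 → Q.G v (2 * Q.ord v x) (x ^ 2) := by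
    intro x hx _
    rw [ord_pow hx]
    push_cast
    exact le_rfl
  set α := Q.ord v a with hα
  set β := Q.ord v b with hβ
  set γ := Q.ord v (a + b) with hγ
  rcases lt_trichotomy γ β with hc | hc | hc
  · -- `γ < β`, so `α = γ`
    have e1 : α = γ := by omega
    have e2 : mn α β γ = α := by
      unfold mn
      omega
    have e3 : ne3 α β γ = 1 := by
      unfold ne3
      rw [if_neg]
      omega
    have h1 : b * Q.D a - a * Q.D b = -(a ^ 2 * Q.D (b / a)) := by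
      rw [← W_eq Q.D ha]
      ring
    rw [h1, e2, e3]
    apply G_neg
    have h2 := G_mul (gsq a ha) (G_D1 (Q := Q) (v := v) (b / a))
    rw [ord_div hb ha, ← hα, ← hβ] at h2
    exact G_mono h2 (by omega)
  · -- `γ = β ≤ α`
    have e2 : mn α β γ = β := by
      unfold mn
      omega
    rw [W_eq Q.D hb, e2]
    rcases eq_or_ne α β with e1 | e1
    · have e3 : ne3 α β γ = 0 := by
        unfold ne3
        rw [if_pos]
        omega
      rw [e3]
      have h2 := G_mul (gsq b hb) (G_D0 (Q := Q) (v := v) (u := a / b) (by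
        intro _
        rw [ord_div ha hb]
        omega))
      exact G_mono h2 (by omega)
    · have e3 : ne3 α β γ = 1 := by
        unfold ne3
        rw [if_neg]
        omega
      rw [e3]
      have h2 := G_mul (gsq b hb) (G_D1 (Q := Q) (v := v) (a / b))
      rw [ord_div ha hb, ← hα, ← hβ] at h2
      exact G_mono h2 (by omega)
  · -- `β < γ`, so `α = β`
    have e1 : α = β := by omega
    have e2 : mn α β γ = β := by
      unfold mn
      omega
    have e3 : ne3 α β γ = 1 := by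
      unfold ne3
      rw [if_neg]
      omega
    have h1 : b * Q.D a - a * Q.D b = b ^ 2 * Q.D ((a + b) / b) := by
      rw [← W_eq Q.D hb, map_add]
      ring
    rw [h1, e2, e3]
    have h2 := G_mul (gsq b hb) (G_D1 (Q := Q) (v := v) ((a + b) / b))
    rw [ord_div hab hb, ← hγ, ← hβ] at h2
    exact G_mono h2 (by omega)

lemma lossT_nonneg (Q : PlaceData k K) : 0 ≤ Q.lossT :=
  le_trans (Finset.sum_nonneg fun v _ => mul_nonneg (Q.wt_nonneg v) (Q.loss_nonneg v)) Q.loss_sum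

lemma loss_le (Sp : Finset Q.Pl) : ∑ v ∈ Sp, Q.wt v * Q.loss v ≤ Q.lossT := by
  classical
  have h1 : ∑ v ∈ Sp, Q.wt v * Q.loss v ≤ ∑ v ∈ Sp ∪ Q.lossS, Q.wt v * Q.loss v :=
    Finset.sum_le_sum_of_subset_of_nonneg Finset.subset_union_left
      fun v _ _ => mul_nonneg (Q.wt_nonneg v) (Q.loss_nonneg v)
  have h2 : ∑ v ∈ Q.lossS, Q.wt v * Q.loss v = ∑ v ∈ Sp ∪ Q.lossS, Q.wt v * Q.loss v :=
    Finset.sum_subset Finset.subset_union_right fun v _ hv => by rw [Q.loss_supp v hv, mul_zero]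
  rw [← h2] at h1
  exact h1.trans Q.loss_sum

lemma sum_ord_le {x : K} (hx : x ≠ 0) {Sp : Finset Q.Pl} (h : ∀ v, v ∉ Sp → Q.ord v x = 0) :
    ∑ v ∈ Sp, Q.wt v * Q.ord v x ≤ 0 :=
  Q.prod_formula x hx Sp fun v hv => (h v hv).symm.le

lemma sum_ord_ge {x : K} (hx : x ≠ 0) {Sp : Finset Q.Pl} (h : ∀ v, v ∉ Sp → Q.ord v x = 0) :
    0 ≤ ∑ v ∈ Sp, Q.wt v * Q.ord v x := by
  have h1 := Q.prod_formula x⁻¹ (inv_ne_zero hx) Sp fun v hv => by
    rw [ord_inv hx, h v hv, neg_zero]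
  have h2 : ∑ v ∈ Sp, Q.wt v * Q.ord v x⁻¹ = - ∑ v ∈ Sp, Q.wt v * Q.ord v x := by
    rw [← Finset.sum_neg_distrib]
    refine Finset.sum_congr rfl fun v _ => ?_
    rw [ord_inv hx]
    ring
  rw [h2] at h1
  linarith

/-- The abc inequality. -/
theorem abc_triple {a b : K} (ha : a ≠ 0) (hb : b ≠ 0) (hab : a + b ≠ 0) {Sp : Finset Q.Pl}
    (h1 : ∀ v, v ∉ Sp → Q.ord v a = 0) (h2 : ∀ v, v ∉ Sp → Q.ord v b = 0)
    (h3 : ∀ v, v ∉ Sp → Q.ord v (a + b) = 0) (h4 : ∀ v, v ∉ Sp → Q.loss v = 0) :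
    ∑ v ∈ Sp, Q.wt v * (-mn (Q.ord v a) (Q.ord v b) (Q.ord v (a + b)) -
      ne3 (Q.ord v a) (Q.ord v b) (Q.ord v (a + b))) ≤ Q.lossT := by
  by_cases hW : b * Q.D a - a * Q.D b = 0
  · rw [W_eq Q.D hb] at hW
    have h5 : Q.D (a / b) = 0 := by
      rcases mul_eq_zero.mp hW with h | h
      · exact absurd h (pow_ne_zero 2 hb)
      · exact h
    obtain ⟨c, hc⟩ := Q.D_ker _ h5
    have hab' : a = algebraMap k K c * b := by
      rw [hc, div_mul_cancel₀ a hb]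
    have hc0 : c ≠ 0 := by
      rintro rfl
      rw [map_zero, zero_mul] at hab'
      exact ha hab'
    have hab2 : a + b = algebraMap k K (c + 1) * b := by
      rw [map_add, map_one, add_mul, one_mul, ← hab']
    have hc1 : c + 1 ≠ 0 := by
      intro h
      rw [h, map_zero, zero_mul] at hab2
      exact hab hab2
    have e1 : ∀ v, Q.ord v a = Q.ord v b := by
      intro v
      rw [hab', Q.ord_mul v _ _ ((_root_.map_ne_zero _).mpr hc0) hb, Q.ord_alg v _ hc0, zero_add]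
    have e2 : ∀ v, Q.ord v (a + b) = Q.ord v b := by
      intro v
      rw [hab2, Q.ord_mul v _ _ ((_root_.map_ne_zero _).mpr hc1) hb, Q.ord_alg v _ hc1, zero_add]
    have e3 : ∀ v, Q.wt v * (-mn (Q.ord v a) (Q.ord v b) (Q.ord v (a + b)) -
      ne3 (Q.ord v a) (Q.ord v b) (Q.ord v (a + b))) = -(Q.wt v * Q.ord v b) := by
      intro v
      rw [e1, e2]
      unfold mn ne3
      rw [if_pos ⟨rfl, rfl⟩, min_self, min_self]
      ring
    rw [Finset.sum_congr rfl fun v _ => e3 v, Finset.sum_neg_distrib]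
    have h6 := sum_ord_ge hb h2
    have h7 := lossT_nonneg Q
    linarith
  · have h5 := Q.prod_formula _ hW Sp fun v hv => by
      have h6 := abc_place v ha hb hab hW
      rw [h1 v hv, h2 v hv, h3 v hv, h4 v hv] at h6
      simpa [mn, ne3] using h6
    have h6 : ∑ v ∈ Sp, Q.wt v * (Q.ord v a + Q.ord v b + Q.ord v (a + b) -
        mn (Q.ord v a) (Q.ord v b) (Q.ord v (a + b)) -
        ne3 (Q.ord v a) (Q.ord v b) (Q.ord v (a + b)) - Q.loss v) ≤
        ∑ v ∈ Sp, Q.wt v * Q.ord v (b * Q.D a - a * Q.D b) :=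
      Finset.sum_le_sum fun v _ => mul_le_mul_of_nonneg_left (abc_place v ha hb hab hW)
        (Q.wt_nonneg v)
    have h7 : ∑ v ∈ Sp, Q.wt v * (Q.ord v a + Q.ord v b + Q.ord v (a + b) -
        mn (Q.ord v a) (Q.ord v b) (Q.ord v (a + b)) -
        ne3 (Q.ord v a) (Q.ord v b) (Q.ord v (a + b)) - Q.loss v) =
        ∑ v ∈ Sp, Q.wt v * Q.ord v a + ∑ v ∈ Sp, Q.wt v * Q.ord v b +
        ∑ v ∈ Sp, Q.wt v * Q.ord v (a + b) + ∑ v ∈ Sp, Q.wt v *
        (-mn (Q.ord v a) (Q.ord v b) (Q.ord v (a + b)) -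
        ne3 (Q.ord v a) (Q.ord v b) (Q.ord v (a + b))) - ∑ v ∈ Sp, Q.wt v * Q.loss v := by
      rw [← Finset.sum_add_distrib, ← Finset.sum_add_distrib, ← Finset.sum_add_distrib,
        ← Finset.sum_sub_distrib]
      exact Finset.sum_congr rfl fun v _ => by ring
    rw [h7] at h6
    have g1 := sum_ord_ge ha h1
    have g2 := sum_ord_ge hb h2
    have g3 := sum_ord_ge hab h3
    have g4 := loss_le (Q := Q) Sp
    linarith

lemma T3_sum [DecidableEq K] {ι : Type*} (s : Finset ι) (w : ι → ℤ) (P : Finset K)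
    (F : ι → K → K → K → ℤ) :
    ∑ v ∈ s, w v * T3 P (F v) = T3 P fun x y z => ∑ v ∈ s, w v * F v x y z := by
  unfold T3
  simp only [Finset.mul_sum]
  rw [Finset.sum_comm]
  refine Finset.sum_congr rfl fun x _ => ?_
  rw [Finset.sum_comm]
  refine Finset.sum_congr rfl fun y _ => ?_
  rw [Finset.sum_comm]

lemma T2_sum [DecidableEq K] {ι : Type*} (s : Finset ι) (w : ι → ℤ) (P : Finset K)
    (F : ι → K → K → ℤ) :
    ∑ v ∈ s, w v * T2 P (F v) = T2 P fun x y => ∑ v ∈ s, w v * F v x y := by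
  unfold T2
  simp only [Finset.mul_sum]
  rw [Finset.sum_comm]
  refine Finset.sum_congr rfl fun x _ => ?_
  rw [Finset.sum_comm]

/-- The global inequality. -/
theorem global_ineq [DecidableEq K] (Q : PlaceData k K) {d B : ℕ} (hd : 2 ≤ d) (hB : 1 ≤ B) {A : K}
    (hA : A ≠ 0) (P : Finset K) (hP : 2 ≤ P.card) {Sp : Finset Q.Pl}
    (h1 : ∀ v, v ∉ Sp → ∀ x ∈ P, ∀ y ∈ P, x ≠ y → Q.ord v (x - y) = 0)
    (h2 : ∀ v, v ∉ Sp → Q.ord v A = 0) (h3 : ∀ v, v ∉ Sp → Q.loss v = 0) :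
    ∑ v ∈ Sp, (Q.wt v : ℝ) * JJ Q d B A P v ≤ ((B : ℝ) * d - 1) * (P.card : ℝ) ^ 3 * Q.lossT := by
  have hd1 : (0 : ℝ) < (d : ℝ) - 1 := by
    have : (2 : ℝ) ≤ d := by exact_mod_cast hd
    linarith
  have hN2 : (2 : ℝ) ≤ (P.card : ℝ) := by exact_mod_cast hP
  have hD1 : 1 ≤ (B : ℝ) * d := by
    have h1 : (1 : ℝ) ≤ B := by exact_mod_cast hB
    have h2 : (1 : ℝ) ≤ d := by linarith
    nlinarith
  have e1 : ∑ v ∈ Sp, Q.wt v * T3 P (fun x y z => -mn (Q.ord v (x - y)) (Q.ord v (y - z))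
      (Q.ord v (x - z)) - ne3 (Q.ord v (x - y)) (Q.ord v (y - z)) (Q.ord v (x - z))) ≤
      P.card * ((P.card : ℤ) - 1) * ((P.card : ℤ) - 2) * Q.lossT := by
    rw [T3_sum Sp Q.wt P, ← T3_const]
    apply T3_le
    intro x hx y hy z hz hxy hyz hxz
    have h4 : x - z = (x - y) + (y - z) := by ring
    have h5 := abc_triple (Q := Q) (a := x - y) (b := y - z) (sub_ne_zero.mpr hxy)
      (sub_ne_zero.mpr hyz) (by rw [← h4]; exact sub_ne_zero.mpr hxz) (Sp := Sp)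
      (fun v hv => h1 v hv x hx y hy hxy) (fun v hv => h1 v hv y hy z hz hyz)
      (fun v hv => by rw [← h4]; exact h1 v hv x hx z hz hxz) h3
    rw [← h4] at h5
    exact h5
  have e2 : ∑ v ∈ Sp, Q.wt v * T2 P (fun x y => Q.ord v (x - y)) ≤ 0 := by
    rw [T2_sum Sp Q.wt P]
    unfold T2
    refine Finset.sum_nonpos fun x hx => Finset.sum_nonpos fun y hy => ?_
    obtain ⟨h4, h5⟩ := Finset.mem_erase.mp hy
    exact sum_ord_le (sub_ne_zero.mpr h4.symm) fun v hv => h1 v hv x hx y h5 h4.symm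
  have e3 : ∑ v ∈ Sp, Q.wt v * Q.ord v A ≤ 0 := sum_ord_le hA h2
  have e1' : ∑ v ∈ Sp, (Q.wt v : ℝ) * ((T3 P (fun x y z => -mn (Q.ord v (x - y)) (Q.ord v (y - z))
      (Q.ord v (x - z)) - ne3 (Q.ord v (x - y)) (Q.ord v (y - z)) (Q.ord v (x - z))) : ℤ) : ℝ) ≤
      (P.card : ℝ) * ((P.card : ℝ) - 1) * ((P.card : ℝ) - 2) * Q.lossT := by exact_mod_cast e1
  have e2' : ∑ v ∈ Sp, (Q.wt v : ℝ) * ((T2 P (fun x y => Q.ord v (x - y)) : ℤ) : ℝ) ≤ 0 := by
    exact_mod_cast e2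
  have e3' : ∑ v ∈ Sp, (Q.wt v : ℝ) * (Q.ord v A : ℝ) ≤ 0 := by exact_mod_cast e3
  set N : ℝ := (P.card : ℝ) with hN
  set D : ℝ := (B : ℝ) * d with hD
  have hexp : ∑ v ∈ Sp, (Q.wt v : ℝ) * JJ Q d B A P v =
      (D - 1) * ∑ v ∈ Sp, (Q.wt v : ℝ) * ((T3 P (fun x y z => -mn (Q.ord v (x - y)) (Q.ord v (y - z))
      (Q.ord v (x - z)) - ne3 (Q.ord v (x - y)) (Q.ord v (y - z)) (Q.ord v (x - z))) : ℤ) : ℝ) +
      13 * D * N * ∑ v ∈ Sp, (Q.wt v : ℝ) * ((T2 P (fun x y => Q.ord v (x - y)) : ℤ) : ℝ) +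
      (N * (N - 1) * (13 * D * N - (D - 1) * (N - 2)) / ((d : ℝ) - 1)) *
        ∑ v ∈ Sp, (Q.wt v : ℝ) * (Q.ord v A : ℝ) := by
    rw [Finset.mul_sum, Finset.mul_sum, Finset.mul_sum, ← Finset.sum_add_distrib,
      ← Finset.sum_add_distrib]
    refine Finset.sum_congr rfl fun v _ => ?_
    unfold JJ
    rw [← hN, ← hD]
    field_simp
    ring
  rw [hexp]
  have c1 : (D - 1) * ∑ v ∈ Sp, (Q.wt v : ℝ) * ((T3 P (fun x y z => -mn (Q.ord v (x - y))
      (Q.ord v (y - z)) (Q.ord v (x - z)) - ne3 (Q.ord v (x - y)) (Q.ord v (y - z))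
      (Q.ord v (x - z))) : ℤ) : ℝ) ≤ (D - 1) * (N * (N - 1) * (N - 2) * Q.lossT) :=
    mul_le_mul_of_nonneg_left e1' (by linarith)
  have c2 : 13 * D * N * ∑ v ∈ Sp, (Q.wt v : ℝ) * ((T2 P (fun x y => Q.ord v (x - y)) : ℤ) : ℝ) ≤ 0 :=
    mul_nonpos_of_nonneg_of_nonpos (by positivity) e2'
  have c3 : (N * (N - 1) * (13 * D * N - (D - 1) * (N - 2)) / ((d : ℝ) - 1)) *
        ∑ v ∈ Sp, (Q.wt v : ℝ) * (Q.ord v A : ℝ) ≤ 0 := by
    apply mul_nonpos_of_nonneg_of_nonpos _ e3'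
    apply div_nonneg _ hd1.le
    have h3 : (D - 1) * (N - 2) ≤ D * N := mul_le_mul (by linarith) (by linarith) (by linarith)
      (by linarith)
    have h4 : 0 ≤ D * N := by positivity
    apply mul_nonneg
    · apply mul_nonneg <;> linarith
    · linarith
  have hL : (0 : ℝ) ≤ Q.lossT := by exact_mod_cast lossT_nonneg Q
  have c4 : (D - 1) * (N * (N - 1) * (N - 2) * Q.lossT) ≤ (D - 1) * N ^ 3 * Q.lossT := by
    have h5 : N * (N - 1) * (N - 2) ≤ N ^ 3 := by nlinarith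
    have h6 := mul_le_mul_of_nonneg_right h5 hL
    have h7 := mul_le_mul_of_nonneg_left h6 (show 0 ≤ D - 1 by linarith)
    linarith
  linarith

end Pool.Agent.W277.UF
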