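import Mathlib
import Pool.Agent.W277.UF.E9
import Pool.Agent.W277.UC.PolySmall2

/-!
# Few points if the total size is small
-/

namespace Pool.Agent.W277.UF

open Finset Polynomial Pool.Agent.W277.UB PlaceData Pool.Agent.W277.UC

variable {k K : Type*} [Field k] [Field K] [Algebra k K]
variable {Q : PlaceData k K}

/-- At one place, `P` splits into few classes with differences at the natural scale. -/
lemma col_placeD {e d : ℕ} {A : K} {f : K[X]} {P : Finset K}
    (hS : StabA e d A f P) (hd : 2 ≤ d) (hed : e < d)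
    (v : Q.Pl) (q : ℤ) (hPG : ∀ x ∈ P, ∀ y ∈ P, x ≠ y → -q ≤ Q.ord v (x - y)) :
    Col P (d ^ (max 0 (((d : ℤ) - 1) * q - Q.ord v A)).toNat)
      fun z z' => Q.G v (-(sst Q d A v)) (z - z') := by
  set s := sst Q d A v with hs
  have hd1 : (0 : ℤ) < (d : ℤ) - 1 := by
    have : (2 : ℤ) ≤ d := by exact_mod_cast hd
    linarith
  have hs1 : (d - 1) * s ≤ Q.ord v A := by
    rw [hs]
    unfold sst
    rw [mul_comm]
    exact Int.ediv_mul_le _ hd1.ne'
  have hs2 : Q.ord v A < (d - 1) * (s + 1) := by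
    have := Int.lt_ediv_add_one_mul_self (Q.ord v A) hd1
    rw [hs]
    unfold sst
    linarith
  have key : ∀ M : ℕ, (M : ℤ) ≤ max 0 (q - s) →
      Col P (d ^ M) fun z z' => Q.G v (-(q - M)) (z - z') := by
    intro M
    induction M with
    | zero =>
      intro _
      refine ⟨fun _ => 0, fun _ _ => by simp, fun z hz z' hz' _ => ?_⟩
      simp only [Nat.cast_zero, sub_zero]
      exact fun hne => hPG z hz z' hz' (sub_ne_zero.mp hne)
    | succ M ih =>
      intro hM
      push_cast at hM
      have hM' : (M : ℤ) + 1 ≤ q - s := by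
        rcases le_max_iff.mp hM with h | h
        · have : (0 : ℤ) ≤ M := Int.natCast_nonneg M
          linarith
        · exact h
      have h1 := col_stepA hS hd hed v (q - M) (by
        have : (d - 1) * (s + 1) ≤ (d - 1) * (q - M) :=
          mul_le_mul_of_nonneg_left (by linarith) hd1.le
        linarith) _ (ih (by push_cast; exact le_max_of_le_right (by linarith)))
      rw [← pow_succ] at h1
      refine h1.mono fun z _ z' _ h => ?_
      refine G_mono h (le_of_eq ?_)
      push_cast
      ring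
  have h1 := key (max 0 (q - s)).toNat (by rw [Int.toNat_of_nonneg (le_max_left _ _)])
  rw [Int.toNat_of_nonneg (le_max_left _ _)] at h1
  have h2 : (max 0 (q - s)).toNat ≤ (max 0 (((d : ℤ) - 1) * q - Q.ord v A)).toNat := by
    apply Int.toNat_le_toNat
    apply max_le (le_max_left _ _)
    rcases le_or_gt (q - s) 0 with h | h
    · exact le_max_of_le_left h
    · apply le_max_of_le_right
      · have h4 : 1 ≤ q - s := h
        have h5 : ((d : ℤ) - 1 - 1) * 1 ≤ ((d : ℤ) - 1 - 1) * (q - s - 1) + ((d : ℤ) - 1 - 1) * 1 := by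
          have : (0 : ℤ) ≤ ((d : ℤ) - 1 - 1) * (q - s - 1) := by
            apply mul_nonneg <;> linarith
          linarith
        -- `(d-1)(q-s) - (q - s) ≥ (d-2)(q-s) ≥ d-2 ≥ ord A - (d-1) s`
        have h6 : Q.ord v A - (d - 1) * s ≤ d - 2 := by
          have : Q.ord v A < (d - 1) * s + (d - 1) := by linarith
          linarith
        nlinarith
  refine (h1.mono' (Nat.pow_le_pow_right (by omega) h2)).mono ?_
  intro z _ z' _ h
  refine G_mono h ?_
  have := le_max_right 0 (q - s)
  linarith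

/-- `P` splits into few classes with differences at the natural scale. -/
lemma col_allD {e d : ℕ} {A : K} {f : K[X]} {P : Finset K}
    (hS : StabA e d A f P) (hd : 2 ≤ d) (hed : e < d) (Q : PlaceData k K) (q : Q.Pl → ℤ)
    (hq : ∀ v, ∀ x ∈ P, ∀ y ∈ P, x ≠ y → -q v ≤ Q.ord v (x - y)) (Sp : Finset Q.Pl)
    (h1 : ∀ v, v ∉ Sp → ∀ x ∈ P, ∀ y ∈ P, x ≠ y → Q.ord v (x - y) = 0)
    (h2 : ∀ v, v ∉ Sp → Q.ord v A = 0) :
    Col P (d ^ (∑ v ∈ Sp, Q.wt v * max 0 (((d : ℤ) - 1) * q v - Q.ord v A)).toNat)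
      fun z z' => ∀ v, Q.G v (-(sst Q d A v)) (z - z') := by
  have key : ∀ s : Finset Q.Pl,
      Col P (d ^ (∑ v ∈ s, max 0 (((d : ℤ) - 1) * q v - Q.ord v A)).toNat)
      fun z z' => ∀ v ∈ s, Q.G v (-(sst Q d A v)) (z - z') := by
    classical
    intro s
    induction s using Finset.induction_on with
    | empty =>
      refine ⟨fun _ => 0, fun _ _ => by simp, fun z hz z' hz' _ => ?_⟩
      simp
    | insert a s ha ih =>
      have h1 := (col_placeD hS hd hed a (q a) (hq a)).inter ih
      rw [← pow_add] at h1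
      rw [Finset.sum_insert ha, Int.toNat_add (le_max_left _ _)
        (Finset.sum_nonneg fun v _ => le_max_left _ _)]
      refine h1.mono fun z _ z' _ h v hv => ?_
      rcases Finset.mem_insert.mp hv with rfl | hv
      · exact h.1
      · exact h.2 v hv
  have h3 := key Sp
  have h4 : ∑ v ∈ Sp, max 0 (((d : ℤ) - 1) * q v - Q.ord v A) ≤
      ∑ v ∈ Sp, Q.wt v * max 0 (((d : ℤ) - 1) * q v - Q.ord v A) := by
    refine Finset.sum_le_sum fun v _ => ?_
    have := mul_le_mul_of_nonneg_right (Q.wt_one v)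
      (le_max_left 0 (((d : ℤ) - 1) * q v - Q.ord v A))
    linarith
  refine (h3.mono' (Nat.pow_le_pow_right (by omega) (Int.toNat_le_toNat h4))).mono ?_
  intro z hz z' hz' h v
  by_cases hv : v ∈ Sp
  · exact h v hv
  · have hs0 : sst Q d A v = 0 := by
      unfold sst
      rw [h2 v hv, Int.zero_ediv]
    rw [hs0, neg_zero]
    intro hne
    exact (h1 v hv z hz z' hz' (sub_ne_zero.mp hne)).symm.le

/-- Few points if the total size is small. -/
theorem small_col [CharZero k] {e d : ℕ} {A : K} {f : K[X]} {P : Finset K}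
    (hS : StabA e d A f P)
    (hd : 2 ≤ d) (hed : e + 1 < d) (Q : PlaceData k K) (N : ℕ)
    (hcol : Col P N fun z z' => ∀ v, Q.G v (-(sst Q d A v)) (z - z'))
    (hf : ¬ ∃ y : K, y ≠ 0 ∧ ∃ g : k[X], g.map (algebraMap k K) = scal y f) :
    P.card ≤ N * N * d := by
  classical
  obtain ⟨hfd, hfl, hf0⟩ := lead_f hS.hA hS.hf (show e < d by omega)
  obtain ⟨c, hc1, hc2⟩ := hcol
  have hA := hS.hA
  by_contra hcon
  push Not at hcon
  have hcard : (Finset.range N ×ˢ Finset.range N).card * d < P.card := by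
    rw [Finset.card_product, Finset.card_range]
    exact hcon
  obtain ⟨⟨a, b⟩, -, hab⟩ := Finset.exists_lt_card_fiber_of_mul_lt_card_of_maps_to
    (s := P) (t := Finset.range N ×ˢ Finset.range N) (f := fun z => (c z, c (f.eval z))) (by
      intro z hz
      rw [Finset.mem_product, Finset.mem_range, Finset.mem_range]
      exact ⟨hc1 z hz, hc1 _ (hS.hP z hz)⟩) hcard
  set B := P.filter fun z => (c z, c (f.eval z)) = (a, b) with hB
  obtain ⟨z0, hz0, z1, hz1, hz01⟩ := Finset.one_lt_card.mp (show 1 < B.card by omega)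
  have hBP : ∀ z ∈ B, z ∈ P := fun z hz => (Finset.mem_filter.mp hz).1
  have hBc : ∀ z ∈ B, c z = a ∧ c (f.eval z) = b := by
    intro z hz
    have h := (Finset.mem_filter.mp hz).2
    exact ⟨congrArg Prod.fst h, congrArg Prod.snd h⟩
  have hG : ∀ z ∈ B, ∀ v, Q.G v (-(sst Q d A v)) (z - z0) := fun z hz =>
    hc2 z (hBP z hz) z0 (hBP z0 hz0) ((hBc z hz).1.trans (hBc z0 hz0).1.symm)
  have hG' : ∀ z ∈ B, ∀ v, Q.G v (-(sst Q d A v)) (f.eval z - f.eval z0) := fun z hz =>
    hc2 _ (hS.hP z (hBP z hz)) _ (hS.hP z0 (hBP z0 hz0)) ((hBc z hz).2.trans (hBc z0 hz0).2.symm)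
  set y : K := z1 - z0 with hyd
  have hy : y ≠ 0 := by
    rw [hyd, sub_ne_zero]
    exact hz01.symm
  obtain ⟨⟨cA, hcA⟩, hyo⟩ := scale_const hd hA hy (hG z1 hz1)
  have hcA0 : cA ≠ 0 := by
    rintro rfl
    rw [map_zero] at hcA
    exact mul_ne_zero hA (pow_ne_zero _ hy) hcA.symm
  have hd1 : (0 : ℤ) < (d : ℤ) - 1 := by
    have : (2 : ℤ) ≤ d := by exact_mod_cast hd
    linarith
  have hconst : ∀ x : K, (∀ v, Q.G v (-(sst Q d A v)) x) → ∃ t : k, algebraMap k K t = x / y := by
    intro x hx
    rcases eq_or_ne x 0 with rfl | hx0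
    · exact ⟨0, by simp⟩
    · obtain ⟨-, hxo⟩ := scale_const hd hA hx0 hx
      apply const_of_ord (Q := Q) (div_ne_zero hx0 hy)
      intro v
      rw [ord_div hx0 hy]
      have h1 := hxo v
      have h2 := hyo v
      have h3 : ((d : ℤ) - 1) * (Q.ord v x - Q.ord v y) = 0 := by
        rw [mul_sub, h1, h2, sub_self]
      rcases mul_eq_zero.mp h3 with h4 | h4
      · exact absurd h4 hd1.ne'
      · exact h4
  set w0 := f.eval z0 with hw0
  set F : K[X] := C y⁻¹ * (f.comp (C y * X + C z0) - C w0) with hF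
  have hlin : (C y * X + C z0 : K[X]).natDegree = 1 := natDegree_linear hy
  have hFd : F.natDegree ≤ d := by
    rw [hF, natDegree_C_mul (inv_ne_zero hy)]
    refine (natDegree_sub_le _ _).trans (max_le ?_ ?_)
    · refine natDegree_comp_le.trans ?_
      rw [hfd, hlin, mul_one]
    · rw [natDegree_C]
      exact Nat.zero_le _
  obtain ⟨h, hh⟩ := const_poly (k := k) hFd (P := B.image fun z => (z - z0) / y) (by
    intro x hx
    obtain ⟨z, hz, rfl⟩ := Finset.mem_image.mp hx
    exact hconst _ (hG z hz)) (by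
    intro x hx
    obtain ⟨z, hz, rfl⟩ := Finset.mem_image.mp hx
    have h1 : F.eval ((z - z0) / y) = (f.eval z - w0) / y := by
      have h2 : y * ((z - z0) / y) + z0 = z := by
        field_simp
        ring
      simp only [hF, eval_mul, eval_C, eval_sub, eval_comp, eval_add, eval_X, h2]
      field_simp
    rw [h1]
    exact hconst _ (hG' z hz)) (by
    rw [Finset.card_image_of_injective]
    · exact hab
    · intro x x' hxx
      have h2 : (x - z0) / y = (x' - z0) / y := hxx
      rw [div_left_inj' hy] at h2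
      simpa using h2)
  -- the subleading coefficient
  have hco : F.coeff (d - 1) = d * (A * y ^ (d - 1)) * (z0 / y) := by
    have h1 : f = (f - C A * X ^ d) + C A * X ^ d := by ring
    have h2 : F = C y⁻¹ * ((f - C A * X ^ d).comp (C y * X + C z0)) +
        (C (y⁻¹ * A * y ^ d) * (X + C (z0 / y)) ^ d - C (y⁻¹ * w0)) := by
      rw [hF]
      conv_lhs => rw [h1]
      rw [add_comp, mul_comp, C_comp, X_pow_comp]
      have h3 : (C y * X + C z0 : K[X]) = C y * (X + C (z0 / y)) := by
        rw [mul_add, ← C_mul]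
        congr 2
        field_simp
      rw [h3, mul_pow]
      simp only [C_mul, C_pow]
      ring
    rw [h2, coeff_add, coeff_sub, coeff_C_of_ne_zero (by omega), sub_zero]
    have h3 : (C y⁻¹ * ((f - C A * X ^ d).comp (C y * X + C z0))).coeff (d - 1) = 0 := by
      rw [coeff_C_mul]
      have h4 : ((f - C A * X ^ d).comp (C y * X + C z0)).coeff (d - 1) = 0 := by
        apply coeff_eq_zero_of_natDegree_lt
        refine lt_of_le_of_lt natDegree_comp_le ?_
        rw [hlin, mul_one]
        exact lt_of_le_of_lt hS.hf (by omega)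
      rw [h4, mul_zero]
    rw [h3, zero_add, coeff_C_mul, coeff_X_add_C_pow]
    have h4 : d - (d - 1) = 1 := by omega
    have h5 : d.choose (d - 1) = d := by
      have h6 := Nat.choose_symm (n := d) (k := 1) (by omega)
      rwa [Nat.choose_one_right] at h6
    rw [h4, h5, pow_one]
    have h6 : y ^ d = y ^ (d - 1) * y := by
      rw [← pow_succ]
      congr 1
      omega
    rw [h6]
    field_simp
  have hz0c : ∃ t : k, algebraMap k K t = z0 / y := by
    refine ⟨h.coeff (d - 1) / (d * cA), ?_⟩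
    have h1 : algebraMap k K (h.coeff (d - 1)) = d * (A * y ^ (d - 1)) * (z0 / y) := by
      rw [← coeff_map, hh, hco]
    have h2 : (d : k) ≠ 0 := by
      rw [Nat.cast_ne_zero]
      omega
    have h3 : (d : K) ≠ 0 := by
      rw [← map_natCast (algebraMap k K)]
      exact (_root_.map_ne_zero _).mpr h2
    have h4 : A * y ^ (d - 1) ≠ 0 := mul_ne_zero hA (pow_ne_zero _ hy)
    rw [map_div₀, h1, map_mul, map_natCast, hcA]
    field_simp
  obtain ⟨t0, ht0⟩ := hz0c
  have hfF : (h.comp (X - C t0)).map (algebraMap k K) = scal y f - C (w0 / y) := by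
    rw [map_comp, hh, Polynomial.map_sub, map_X, map_C, ht0, hF, mul_comp, C_comp, sub_comp,
      C_comp, comp_assoc]
    have h3 : (C y * X + C z0 : K[X]).comp (X - C (z0 / y)) = C y * X := by
      simp only [add_comp, mul_comp, C_comp, X_comp]
      rw [mul_sub, ← C_mul, mul_div_cancel₀ z0 hy]
      ring
    rw [h3]
    unfold scal
    rw [mul_sub, ← C_mul]
    congr 3
    field_simp
  have hw0c : ¬ ∃ t : k, algebraMap k K t = w0 / y := by
    rintro ⟨t, ht⟩
    apply hf
    refine ⟨y, hy, h.comp (X - C t0) + C t, ?_⟩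
    rw [Polynomial.map_add, hfF, map_C, ht]
    ring
  refine no_const hd Q (h.comp (X - C t0)) ?_ (w0 / y) hw0c (P.image fun z => z / y)
    (Finset.mem_image.mpr ⟨w0, hS.hP z0 (hBP z0 hz0), rfl⟩) ?_
  · rw [← natDegree_map (algebraMap k K), hfF, natDegree_sub_C, natDegree_scal hy, hfd]
  · intro x hx
    obtain ⟨z, hz, rfl⟩ := Finset.mem_image.mp hx
    rw [hfF, sub_add_cancel, eval_scal, mul_div_cancel₀ z hy]
    exact Finset.mem_image.mpr ⟨f.eval z, hS.hP z hz, by field_simp⟩

end Pool.Agent.W277.UF
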