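import Mathlib
import Pool.Agent.W277.UF.E10

/-!
# Polynomials with a large gap: the bound
-/

namespace Pool.Agent.W277.UF

open Finset Polynomial Pool.Agent.W277.UB PlaceData Pool.Agent.W277.UC

variable {k K : Type*} [Field k] [Field K] [Algebra k K]
variable {Q : PlaceData k K}

lemma exists_q [DecidableEq K] (P : Finset K) (hP : 2 ≤ P.card) (v : Q.Pl) :
    ∃ q : ℤ, (∀ x ∈ P, ∀ y ∈ P, x ≠ y → -q ≤ Q.ord v (x - y)) ∧
      ∃ za ∈ P, ∃ zb ∈ P, za ≠ zb ∧ Q.ord v (za - zb) = -q := by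
  obtain ⟨a, ha, b, hb, hab⟩ := Finset.one_lt_card.mp (show 1 < P.card by omega)
  obtain ⟨⟨x, y⟩, hxy, hmin⟩ := P.offDiag.exists_min_image (fun p => Q.ord v (p.1 - p.2))
    ⟨(a, b), Finset.mem_offDiag.mpr ⟨ha, hb, hab⟩⟩
  obtain ⟨hx, hy, hne⟩ := Finset.mem_offDiag.mp hxy
  refine ⟨-Q.ord v (x - y), ?_, x, hx, y, hy, hne, by ring⟩
  intro z hz w hw hzw
  have := hmin (z, w) (Finset.mem_offDiag.mpr ⟨hz, hw, hzw⟩)
  simpa using this

/-- Iterates of a polynomial. -/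
noncomputable def itp (f : K[X]) : ℕ → K[X]
  | 0 => X
  | n + 1 => f.comp (itp f n)

lemma itp_natDegree {f : K[X]} {d : ℕ} (hf : f.natDegree = d) (n : ℕ) :
    (itp f n).natDegree = d ^ n := by
  induction n with
  | zero => simp [itp]
  | succ n ih => rw [itp, natDegree_comp, hf, ih, pow_succ, mul_comm]

lemma itp_mem {f : K[X]} {P : Finset K} (hP : ∀ z ∈ P, f.eval z ∈ P) (n : ℕ) :
    ∀ z ∈ P, (itp f n).eval z ∈ P := by
  induction n with
  | zero =>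
    intro z hz
    simpa [itp] using hz
  | succ n ih =>
    intro z hz
    rw [itp, eval_comp]
    exact hP _ (ih z hz)

lemma itp_lead {f : K[X]} {d : ℕ} (hd : 1 ≤ d) (hf : f.natDegree = d) (hf0 : f ≠ 0) (v : Q.Pl)
    (n : ℕ) :
    (itp f n).leadingCoeff ≠ 0 ∧
      ((d : ℤ) - 1) * Q.ord v (itp f n).leadingCoeff = ((d : ℤ) ^ n - 1) * Q.ord v f.leadingCoeff := by
  have hl : f.leadingCoeff ≠ 0 := leadingCoeff_ne_zero.mpr hf0
  induction n with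
  | zero =>
    simp [itp, ord_one]
  | succ n ih =>
    obtain ⟨ih1, ih2⟩ := ih
    have hdeg : (itp f n).natDegree ≠ 0 := by
      rw [itp_natDegree hf]
      exact (Nat.pow_pos (show 0 < d by omega)).ne'
    have h1 : (itp f (n + 1)).leadingCoeff = f.leadingCoeff * (itp f n).leadingCoeff ^ d := by
      rw [itp, leadingCoeff_comp hdeg, hf]
    rw [h1]
    refine ⟨mul_ne_zero hl (pow_ne_zero _ ih1), ?_⟩
    rw [Q.ord_mul v _ _ hl (pow_ne_zero _ ih1), ord_pow ih1, pow_succ]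
    linear_combination (d : ℤ) * ih2

/-- The total size is bounded if there are many points. -/
theorem large_E [CharZero k] [DecidableEq K] (Q : PlaceData k K) {e d : ℕ} {A : K} {f : K[X]}
    {P : Finset K} (hS : StabA e d A f P) (hd : 5 ≤ d) (he : 2 * e + 4 ≤ d)
    (hN : d ^ 10 ≤ P.card) (q : Q.Pl → ℤ)
    (hq : ∀ v, (∀ x ∈ P, ∀ y ∈ P, x ≠ y → -q v ≤ Q.ord v (x - y)) ∧
      ∃ za ∈ P, ∃ zb ∈ P, za ≠ zb ∧ Q.ord v (za - zb) = -q v) {Sp : Finset Q.Pl}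
    (h1 : ∀ v, v ∉ Sp → ∀ x ∈ P, ∀ y ∈ P, x ≠ y → Q.ord v (x - y) = 0)
    (h2 : ∀ v, v ∉ Sp → Q.ord v A = 0) (h3 : ∀ v, v ∉ Sp → Q.loss v = 0) (s : ℤ)
    (hs : ∑ v ∈ Sp, Q.wt v * (if Q.ord v A = 0 then 0 else 1) ≤ s) :
    ∑ v ∈ Sp, Q.wt v * max 0 (((d : ℤ) - 1) * q v - Q.ord v A) ≤
      ((d : ℤ) - 1) * d ^ 2 * (Q.lossT + s) := by
  obtain ⟨hfd, hfl, hf0⟩ := lead_f hS.hA hS.hf (show e < d by omega)
  set B := d ^ 4 with hBd
  have hBdd : B * d = d ^ 5 := by rw [hBd]; ring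
  have hd3 : 125 ≤ d ^ 3 := by
    calc 125 = 5 ^ 3 := by norm_num
      _ ≤ d ^ 3 := Nat.pow_le_pow_left hd 3
  have hB : 26 * d ^ 2 + 1 ≤ B * d := by
    rw [hBdd]
    have h4 : 125 * d ^ 2 ≤ d ^ 5 := by
      calc 125 * d ^ 2 ≤ d ^ 3 * d ^ 2 := Nat.mul_le_mul_right _ hd3
        _ = d ^ 5 := by ring
    have h5 : 1 ≤ d ^ 2 := Nat.one_le_pow _ _ (by omega)
    omega
  have hNN : 2 * d ^ 2 * (26 * (B * d) + 3) ≤ P.card := by
    refine le_trans ?_ hN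
    rw [hBdd]
    have h4 : 125 * d ^ 7 ≤ d ^ 10 := by
      calc 125 * d ^ 7 ≤ d ^ 3 * d ^ 7 := Nat.mul_le_mul_right _ hd3
        _ = d ^ 10 := by ring
    have h5 : d ^ 2 ≤ d ^ 7 := Nat.pow_le_pow_right (by omega) (by norm_num)
    calc 2 * d ^ 2 * (26 * d ^ 5 + 3) = 52 * d ^ 7 + 6 * d ^ 2 := by ring
      _ ≤ 125 * d ^ 7 := by omega
      _ ≤ d ^ 10 := h4
  have hP2 : 2 ≤ P.card := by
    refine le_trans ?_ hN
    calc 2 ≤ 5 ^ 10 := by norm_num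
      _ ≤ d ^ 10 := Nat.pow_le_pow_left hd 10
  have hκ : ((1 + d + d ^ 2 + d ^ 3 + d ^ 4 : ℕ) : ℤ) * ((d : ℤ) - 1) = B * d - 1 := by
    rw [hBd]
    push_cast
    ring
  have hBd1 : 1 ≤ B := Nat.one_le_pow _ _ (by omega)
  have hg := global_ineq Q (d := d) (B := B) (by omega) hBd1 hS.hA P hP2 h1 h2 h3
  have hloc : ∀ v, ((B : ℝ) * d - 1) * (P.card : ℝ) ^ 3 *
      (((max 0 (((d : ℤ) - 1) * q v - Q.ord v A) : ℤ) : ℝ) / ((d : ℝ) - 1)) -
      d ^ 2 * (((B : ℝ) * d - 1) * (P.card : ℝ) ^ 3 * (if Q.ord v A = 0 then 0 else 1)) ≤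
      d ^ 2 * JJ Q d B A P v := by
    intro v
    have hd1 : (0 : ℝ) < (d : ℝ) - 1 := by
      have : (5 : ℝ) ≤ d := by exact_mod_cast hd
      linarith
    have hD1 : 0 ≤ (B : ℝ) * d - 1 := by
      have h4 : 1 ≤ B * d := by
        have : 0 < B * d := Nat.mul_pos hBd1 (by omega)
        exact this
      have h5 : (1 : ℝ) ≤ (B : ℝ) * d := by exact_mod_cast h4
      linarith
    obtain ⟨hq1, za, hza, zb, hzb, hab, hqab⟩ := hq v
    rcases le_or_gt (((d : ℤ) - 1) * q v) (Q.ord v A) with hc | hc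
    · rw [max_eq_left (by linarith)]
      have h4 := JJ_good (Q := Q) (B := B) v (q v) (by omega) hBd1 hP2 hq1 hc
      have h5 : 0 ≤ (d : ℝ) ^ 2 * JJ Q d B A P v := mul_nonneg (by positivity) h4
      have h6 : 0 ≤ (d : ℝ) ^ 2 * (((B : ℝ) * d - 1) * (P.card : ℝ) ^ 3 *
          (if Q.ord v A = 0 then 0 else 1)) := by
        apply mul_nonneg (by positivity)
        apply mul_nonneg
        · apply mul_nonneg hD1 (by positivity)
        · split_ifs <;> norm_num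
      simp only [Int.cast_zero, zero_div, mul_zero, zero_sub]
      linarith
    · rw [max_eq_right (by linarith)]
      have h4 := JJ_bad (Q := Q) (κ := 1 + d + d ^ 2 + d ^ 3 + d ^ 4) hS hd he (itp_natDegree hfd 4)
        (itp_mem hS.hP 4) v (by
          have h5 := (itp_lead (Q := Q) (by omega) hfd hf0 v 4).2
          rw [hfl] at h5
          rw [h5]
          push_cast
          ring) hκ hB hNN (q v) hq1 hza hzb hab hqab hc
      refine le_trans (le_of_eq ?_) h4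
      congr 2
      push_cast
      field_simp
  have hd1 : (0 : ℝ) < (d : ℝ) - 1 := by
    have : (5 : ℝ) ≤ d := by exact_mod_cast hd
    linarith
  set D : ℝ := (B : ℝ) * d with hD
  have hD1 : 0 < D - 1 := by
    have h4 : 26 * d ^ 2 + 1 ≤ B * d := hB
    have h5 : (26 : ℝ) * d ^ 2 + 1 ≤ D := by
      rw [hD]
      exact_mod_cast h4
    have h6 : (0 : ℝ) < (d : ℝ) ^ 2 := by
      have : (5 : ℝ) ≤ d := by exact_mod_cast hd
      positivity
    linarith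
  set N : ℝ := (P.card : ℝ) with hNd
  have hN0 : 0 < N := by
    rw [hNd]
    have : 0 < P.card := by omega
    exact_mod_cast this
  have hsum : ∑ v ∈ Sp, (Q.wt v : ℝ) * ((D - 1) * N ^ 3 *
      (((max 0 (((d : ℤ) - 1) * q v - Q.ord v A) : ℤ) : ℝ) / ((d : ℝ) - 1)) -
      d ^ 2 * ((D - 1) * N ^ 3 * (if Q.ord v A = 0 then 0 else 1))) ≤
      ∑ v ∈ Sp, (Q.wt v : ℝ) * (d ^ 2 * JJ Q d B A P v) := by
    refine Finset.sum_le_sum fun v _ => mul_le_mul_of_nonneg_left (hloc v) ?_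
    exact_mod_cast Q.wt_nonneg v
  have e1 : ∑ v ∈ Sp, (Q.wt v : ℝ) * (d ^ 2 * JJ Q d B A P v) =
      d ^ 2 * ∑ v ∈ Sp, (Q.wt v : ℝ) * JJ Q d B A P v := by
    rw [Finset.mul_sum]
    exact Finset.sum_congr rfl fun v _ => by ring
  have e2 : ∑ v ∈ Sp, (Q.wt v : ℝ) * ((D - 1) * N ^ 3 *
      (((max 0 (((d : ℤ) - 1) * q v - Q.ord v A) : ℤ) : ℝ) / ((d : ℝ) - 1)) -
      d ^ 2 * ((D - 1) * N ^ 3 * (if Q.ord v A = 0 then 0 else 1))) =
      (D - 1) * N ^ 3 * ((∑ v ∈ Sp, (Q.wt v : ℝ) *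
        ((max 0 (((d : ℤ) - 1) * q v - Q.ord v A) : ℤ) : ℝ)) / ((d : ℝ) - 1) -
        d ^ 2 * ∑ v ∈ Sp, (Q.wt v : ℝ) * (if Q.ord v A = 0 then 0 else 1)) := by
    rw [Finset.sum_div, Finset.mul_sum, ← Finset.sum_sub_distrib, Finset.mul_sum]
    exact Finset.sum_congr rfl fun v _ => by ring
  rw [e1, e2] at hsum
  have e3 : (d : ℝ) ^ 2 * ∑ v ∈ Sp, (Q.wt v : ℝ) * JJ Q d B A P v ≤
      (D - 1) * N ^ 3 * (d ^ 2 * Q.lossT) := by
    have := mul_le_mul_of_nonneg_left hg (show (0 : ℝ) ≤ (d : ℝ) ^ 2 by positivity)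
    linarith
  have e4 := le_of_mul_le_mul_left (hsum.trans e3) (by positivity)
  have e5 : ∑ v ∈ Sp, (Q.wt v : ℝ) * (if Q.ord v A = 0 then 0 else 1) ≤ s := by
    have h4 : ((∑ v ∈ Sp, Q.wt v * (if Q.ord v A = 0 then 0 else 1) : ℤ) : ℝ) ≤ s := by
      exact_mod_cast hs
    refine le_trans (le_of_eq ?_) h4
    push_cast
    rfl
  have e6 : (∑ v ∈ Sp, (Q.wt v : ℝ) * ((max 0 (((d : ℤ) - 1) * q v - Q.ord v A) : ℤ) : ℝ)) ≤
      ((d : ℝ) - 1) * (d ^ 2 * (Q.lossT + s)) := by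
    have h4 : (∑ v ∈ Sp, (Q.wt v : ℝ) * ((max 0 (((d : ℤ) - 1) * q v - Q.ord v A) : ℤ) : ℝ)) /
        ((d : ℝ) - 1) ≤ d ^ 2 * (Q.lossT + s) := by
      have h5 := mul_le_mul_of_nonneg_left e5 (show (0 : ℝ) ≤ (d : ℝ) ^ 2 by positivity)
      linarith
    rw [div_le_iff₀ hd1] at h4
    linarith
  have e7 : ((∑ v ∈ Sp, Q.wt v * max 0 (((d : ℤ) - 1) * q v - Q.ord v A) : ℤ) : ℝ) ≤
      ((((d : ℤ) - 1) * d ^ 2 * (Q.lossT + s) : ℤ) : ℝ) := by
    push_cast at e6 ⊢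
    linarith
  exact_mod_cast e7

/-- The bound, given place data. -/
theorem card_E [CharZero k] [DecidableEq K] (Q : PlaceData k K) {e d : ℕ} {A : K} {f : K[X]}
    {P : Finset K} (hS : StabA e d A f P) (hd : 5 ≤ d) (he : 2 * e + 4 ≤ d) (s : ℕ)
    (hs : ∀ Sp : Finset Q.Pl, ∑ v ∈ Sp, Q.wt v * (if Q.ord v A = 0 then 0 else 1) ≤ s)
    (hf : ¬ ∃ y : K, y ≠ 0 ∧ ∃ g : k[X], g.map (algebraMap k K) = scal y f) :
    P.card ≤ max (d ^ 10) (d ^ (2 * (d ^ 3 * (Q.lossT.toNat + s)) + 1)) := by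
  classical
  rcases le_or_gt (d ^ 10) P.card with hN | hN
  · refine le_max_of_le_right ?_
    have hP2 : 2 ≤ P.card := by
      refine le_trans ?_ hN
      calc 2 ≤ 5 ^ 10 := by norm_num
        _ ≤ d ^ 10 := Nat.pow_le_pow_left hd 10
    choose q hq1 hq2 using exists_q (Q := Q) P hP2
    set Sp : Finset Q.Pl := supp Q (insert A (P.offDiag.image fun p => p.1 - p.2)) with hSp
    have h1 : ∀ v, v ∉ Sp → ∀ x ∈ P, ∀ y ∈ P, x ≠ y → Q.ord v (x - y) = 0 := by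
      intro v hv x hx y hy hxy
      refine ord_of_notMem hv (Finset.mem_insert_of_mem ?_) (sub_ne_zero.mpr hxy)
      exact Finset.mem_image.mpr ⟨(x, y), Finset.mem_offDiag.mpr ⟨hx, hy, hxy⟩, rfl⟩
    have h2 : ∀ v, v ∉ Sp → Q.ord v A = 0 := fun v hv =>
      ord_of_notMem hv (Finset.mem_insert_self _ _) hS.hA
    have h3 : ∀ v, v ∉ Sp → Q.loss v = 0 := by
      intro v hv
      apply Q.loss_supp
      intro hv2
      apply hv
      rw [hSp]
      unfold supp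
      exact Finset.mem_union_left _ hv2
    have hlarge := large_E Q hS hd he hN q (fun v => ⟨hq1 v, hq2 v⟩) h1 h2 h3 s (hs Sp)
    have hcol := col_allD hS (by omega) (show e < d by omega) Q q hq1 Sp h1 h2
    have hsm := small_col hS (by omega) (by omega) Q _ hcol hf
    set H := ∑ v ∈ Sp, Q.wt v * max 0 (((d : ℤ) - 1) * q v - Q.ord v A) with hH
    have hHn : H.toNat ≤ d ^ 3 * (Q.lossT.toNat + s) := by
      rw [Int.toNat_le]
      refine hlarge.trans ?_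
      push_cast
      have h4 : ((Q.lossT.toNat : ℕ) : ℤ) = Q.lossT := Int.toNat_of_nonneg (lossT_nonneg Q)
      rw [h4]
      have h5 : ((d : ℤ) - 1) * d ^ 2 ≤ d ^ 3 := by
        have : (0 : ℤ) ≤ (d : ℤ) ^ 2 := by positivity
        nlinarith
      apply mul_le_mul_of_nonneg_right h5
      have := lossT_nonneg Q
      positivity
    refine hsm.trans ?_
    calc d ^ H.toNat * d ^ H.toNat * d = d ^ (2 * H.toNat + 1) := by ring
      _ ≤ d ^ (2 * (d ^ 3 * (Q.lossT.toNat + s)) + 1) := Nat.pow_le_pow_right (by omega) (by omega)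
  · exact le_max_of_le_left hN.le

end Pool.Agent.W277.UF
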