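import Mathlib
import Pool.Agent.W277.UF.E11
import Pool.Agent.W277.UC.FinP
import Pool.Agent.W277.UD.StrongP

/-!
# Polynomials with a large gap: final theorem
-/

namespace Pool.Agent.W277.UF

open Finset Polynomial Pool.Agent.W277.UB PlaceData Pool.Agent.W277.UC

section

variable {k K : Type*} [Field k] [Field K] [Algebra k K]
variable {Q : PlaceData k K}

lemma exists_s (Q : PlaceData k K) {A : K} (hA : A ≠ 0) :
    ∃ s : ℕ, (∀ Sp : Finset Q.Pl, ∑ v ∈ Sp, Q.wt v * (if Q.ord v A = 0 then 0 else 1) ≤ s) ∧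
      ((∀ v, Q.ord v A = 0) → s = 0) := by
  classical
  set T := (Q.fin A hA).toFinset with hT
  have hT0 : 0 ≤ ∑ v ∈ T, Q.wt v := Finset.sum_nonneg fun v _ => Q.wt_nonneg v
  refine ⟨(∑ v ∈ T, Q.wt v).toNat, ?_, ?_⟩
  · intro Sp
    rw [Int.toNat_of_nonneg hT0]
    have h1 : ∑ v ∈ Sp, Q.wt v * (if Q.ord v A = 0 then 0 else 1) =
        ∑ v ∈ Sp.filter (fun v => Q.ord v A ≠ 0), Q.wt v := by
      rw [Finset.sum_filter]
      refine Finset.sum_congr rfl fun v _ => ?_
      by_cases h : Q.ord v A = 0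
      · simp [h]
      · simp [h]
    rw [h1]
    apply Finset.sum_le_sum_of_subset_of_nonneg
    · intro v hv
      rw [hT, Set.Finite.mem_toFinset]
      exact (Finset.mem_filter.mp hv).2
    · intro v _ _
      exact Q.wt_nonneg v
  · intro h
    have h1 : T = ∅ := by
      rw [hT, Set.Finite.toFinset_eq_empty]
      ext v
      simp [h v]
    rw [h1]
    simp

/-- Uniform boundedness, given place data. -/
theorem prePer_E [CharZero k] {e d : ℕ} (hd : 5 ≤ d) (he : 2 * e + 4 ≤ d) {f : K[X]}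
    {A y b : K} (hA : A ≠ 0) (hy : y ≠ 0)
    (hf : (f.comp (X + C b) - C (A * y ^ (d - 1)) * X ^ d).natDegree ≤ e) (Q : PlaceData k K)
    (hiso : ¬ ∃ y b : K, y ≠ 0 ∧ ∃ g : k[X], g.map (algebraMap k K) = aff y b f) (s : ℕ)
    (hs : ∀ Sp : Finset Q.Pl, ∑ v ∈ Sp, Q.wt v * (if Q.ord v A = 0 then 0 else 1) ≤ s) :
    (PrePer f).encard ≤ ((max (d ^ 10) (d ^ (2 * (d ^ 3 * (Q.lossT.toNat + s)) + 1)) : ℕ) : ℕ∞) := by
  classical
  set Bd := max (d ^ 10) (d ^ (2 * (d ^ 3 * (Q.lossT.toNat + s)) + 1)) with hB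
  set f1 : K[X] := f.comp (X + C b) - C b with hf1
  have hle : (PrePer f).encard ≤ (PrePer f1).encard := by
    refine (Set.encard_le_encard (prePer_aff f b)).trans ?_
    exact Set.encard_image_le _ _
  refine hle.trans ?_
  set A1 := A * y ^ (d - 1) with hA1
  have hA1' : A1 ≠ 0 := mul_ne_zero hA (pow_ne_zero _ hy)
  have hf1' : (f1 - C A1 * X ^ d).natDegree ≤ e := by
    have h1 : f1 - C A1 * X ^ d = (f.comp (X + C b) - C A1 * X ^ d) - C b := by
      rw [hf1]
      ring
    rw [h1, natDegree_sub_C]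
    exact hf
  by_contra hcon
  push Not at hcon
  obtain ⟨T, hTs, hT⟩ := Set.exists_subset_encard_eq (Order.add_one_le_of_lt hcon)
  have hTf : T.Finite := by
    apply Set.finite_of_encard_eq_coe (k := Bd + 1)
    rw [hT]
    norm_cast
  lift T to Finset K using hTf
  obtain ⟨P, hTP, hP⟩ := exists_stab f1 T fun z hz => hTs (by simpa using hz)
  -- scale
  set f2 : K[X] := scal y⁻¹ f1 with hf2
  set P2 : Finset K := P.image fun z => y * z with hP2
  have hinj : Function.Injective fun z : K => y * z := fun a b h => mul_left_cancel₀ hy h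
  have hS2 : StabA e d A f2 P2 := by
    refine ⟨hA, ?_, ?_⟩
    · have h1 : f2 - C A * X ^ d = C y * (f1 - C A1 * X ^ d).comp (C y⁻¹ * X) := by
        have h2 : y ^ d = y ^ (d - 1) * y := by
          rw [← pow_succ]
          congr 1
          omega
        have h3 : C y * (C A1 * (C (y⁻¹ ^ d) * X ^ d)) = (C A * X ^ d : K[X]) := by
          rw [← mul_assoc, ← mul_assoc, ← C_mul, ← C_mul, hA1]
          congr 2
          rw [inv_pow, h2]
          field_simp
        rw [sub_comp, mul_sub, mul_comp (C A1), C_comp, X_pow_comp, mul_pow, ← C_pow, h3, hf2, scal,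
          inv_inv]
      rw [h1]
      refine (natDegree_C_mul_le _ _).trans (natDegree_comp_le.trans ?_)
      calc (f1 - C A1 * X ^ d).natDegree * (C y⁻¹ * X : K[X]).natDegree ≤ e * 1 :=
            Nat.mul_le_mul hf1' ((natDegree_C_mul_le _ _).trans natDegree_X_le)
        _ = e := mul_one e
    · intro z hz
      obtain ⟨w, hw, rfl⟩ := Finset.mem_image.mp hz
      rw [hf2, eval_scal, inv_inv, inv_mul_cancel_left₀ hy]
      exact Finset.mem_image.mpr ⟨_, hP w hw, rfl⟩
  have hiso2 : ¬ ∃ w : K, w ≠ 0 ∧ ∃ g : k[X], g.map (algebraMap k K) = scal w f2 := by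
    rintro ⟨w, hw, g, hg⟩
    refine hiso ⟨y⁻¹ * w, b, mul_ne_zero (inv_ne_zero hy) hw, g, ?_⟩
    rw [hg, hf2, Pool.Agent.W277.UD.scal_scal, scal, aff, hf1, sub_comp, comp_assoc, C_comp]
    simp
  have h1 := card_E Q hS2 hd he s hs hiso2
  rw [hP2, Finset.card_image_of_injective _ hinj] at h1
  have h2 := Finset.card_le_card hTP
  rw [Set.encard_coe_eq_coe_finsetCard] at hT
  have h3 : T.card = Bd + 1 := by
    exact_mod_cast hT
  rw [← hB] at h1
  omega

/-- Algebraic elements have no zeros and poles. -/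
lemma ord_algebraic {x : K} (hx : x ≠ 0) (hxa : IsAlgebraic k x) (v : Q.Pl) : Q.ord v x = 0 := by
  have key : ∀ y : K, y ≠ 0 → IsAlgebraic k y → 0 ≤ Q.ord v y := by
    intro y hy hya
    have hi : IsIntegral k y := hya.isIntegral
    obtain ⟨p, hp, hpy⟩ := hi
    by_contra hcon
    push Not at hcon
    have h1 : y ^ p.natDegree = -∑ i ∈ range p.natDegree, algebraMap k K (p.coeff i) * y ^ i := by
      have h2 : eval₂ (algebraMap k K) y p = 0 := hpy
      rw [eval₂_eq_sum_range, Finset.sum_range_succ, hp.coeff_natDegree, map_one, one_mul] at h2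
      linear_combination h2
    have h2 : Q.G v (((p.natDegree : ℤ) - 1) * Q.ord v y) (y ^ p.natDegree) := by
      rw [h1]
      apply G_neg
      apply G_sum
      intro i hi
      have h3 := G_mul (G_alg (Q := Q) (v := v) (p.coeff i))
        (G_pow (G_self (Q := Q) (v := v) (x := y)) i)
      refine G_mono h3 ?_
      have h4 : (i : ℤ) ≤ p.natDegree - 1 := by
        have := Finset.mem_range.mp hi
        omega
      nlinarith
    have h3 := h2 (pow_ne_zero _ hy)
    rw [ord_pow hy] at h3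
    linarith
  have h1 := key x hx hxa
  have h2 := key x⁻¹ (inv_ne_zero hx) hxa.inv
  rw [ord_inv hx] at h2
  omega

end

universe u1 u2

/-- Place data without loss for a purely transcendental extension of degree one. -/
theorem exists_pl_rational (k : Type u1) (K : Type u2) [Field k] [CharZero k] [Field K] [Algebra k K]
    (t : K) (ht : Transcendental k t) (htop : IntermediateField.adjoin k {t} = ⊤) :
    ∃ Q : PlaceData.{u1} k K, Q.lossT = 0 := by
  obtain ⟨Q0, hQ0⟩ := exists_ratPl k
  let σ : RatFunc k ≃ₐ[k] K :=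
    (RatFunc.algEquivOfTranscendental t ht).trans
      ((IntermediateField.equivOfEq htop).trans IntermediateField.topEquiv)
  let D : Derivation k K K := Derivation.mk' (σ.toLinearMap ∘ₗ (Q0.D : RatFunc k →ₗ[k] RatFunc k) ∘ₗ
    σ.symm.toLinearMap) (by
      intro a b
      simp only [LinearMap.comp_apply, AlgEquiv.toLinearMap_apply, map_mul, Derivation.coeFn_coe,
        Derivation.leibniz, smul_eq_mul, map_add, AlgEquiv.apply_symm_apply])
  have hD : ∀ x, σ.symm (D x) = Q0.D (σ.symm x) := by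
    intro x
    change σ.symm (σ (Q0.D (σ.symm x))) = _
    rw [AlgEquiv.symm_apply_apply]
  refine ⟨comapPl Q0 (σ.symm : K →+* RatFunc k) (RingHom.id k) ?_ D hD ?_, hQ0⟩
  · intro c
    simp
  · intro x hx
    have h1 : Q0.D (σ.symm x) = 0 := by
      rw [← hD, hx, map_zero]
    obtain ⟨c, hc⟩ := Q0.D_ker _ h1
    refine ⟨c, ?_⟩
    have h2 := congrArg σ hc
    rwa [AlgEquiv.apply_symm_apply, AlgEquiv.commutes] at h2

/-- Uniform boundedness for polynomials with a large gap over function fields. -/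
theorem half_gap (k : Type u1) (K : Type u2) [Field k] [CharZero k] [Field K] [Algebra k K]
    (hFG : (⊤ : IntermediateField k K).FG)
    (hx : ∃ x : K, Transcendental k x ∧ Algebra.IsAlgebraic (IntermediateField.adjoin k {x}) K)
    (A : K) (hA : A ≠ 0) :
    ∃ c : ℕ, ((∃ t : K, IntermediateField.adjoin k {t} = ⊤) → IsAlgebraic k A → c = 0) ∧
      ∀ e d : ℕ, 5 ≤ d → 2 * e + 4 ≤ d → ∀ (f : K[X]) (y b : K), y ≠ 0 →
      (f.comp (X + C b) - C (A * y ^ (d - 1)) * X ^ d).natDegree ≤ e →
      (¬ ∃ y b : K, y ≠ 0 ∧ ∀ n, IsAlgebraic k ((aff y b f).coeff n)) →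
      (PrePer f).encard ≤ ((max (d ^ 10) (d ^ (c * d ^ 3 + 1)) : ℕ) : ℕ∞) := by
  by_cases hrat : (∃ t : K, IntermediateField.adjoin k {t} = ⊤) ∧ IsAlgebraic k A
  · obtain ⟨⟨t, htop⟩, hAa⟩ := hrat
    have ht : Transcendental k t := by
      intro hta
      obtain ⟨x, hx1, -⟩ := hx
      apply hx1
      have h1 : x ∈ IntermediateField.adjoin k {t} := by
        rw [htop]
        exact IntermediateField.mem_top
      have h2 : Algebra.IsAlgebraic k (IntermediateField.adjoin k {t}) :=
        IntermediateField.isAlgebraic_adjoin_simple hta.isIntegral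
      exact (IntermediateField.isAlgebraic_iff.mp (h2.isAlgebraic ⟨x, h1⟩))
    obtain ⟨Q, hQ⟩ := exists_pl_rational k K t ht htop
    refine ⟨0, fun _ _ => rfl, fun e d hd he f y b hy hf hiso => ?_⟩
    have h1 := prePer_E hd he hA hy hf Q (by
      rintro ⟨y, b, hy, g, hg⟩
      refine hiso ⟨y, b, hy, fun n => ?_⟩
      rw [← hg, coeff_map]
      exact isAlgebraic_algebraMap _) 0 (by
      intro Sp
      apply le_of_eq
      apply Finset.sum_eq_zero
      intro v _
      rw [if_pos (ord_algebraic hA hAa v), mul_zero])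
    rw [hQ] at h1
    simpa using h1
  · obtain ⟨Q⟩ := exists_placeData_ff k K hFG hx
    have : CharZero (algebraicClosure k K) := charZero_of_injective_algebraMap
      (algebraMap k (algebraicClosure k K)).injective
    obtain ⟨s, hs, -⟩ := exists_s Q hA
    refine ⟨2 * (Q.lossT.toNat + s), fun h1 h2 => absurd ⟨h1, h2⟩ hrat,
      fun e d hd he f y b hy hf hiso => ?_⟩
    have h1 := prePer_E hd he hA hy hf Q (by
      rintro ⟨y, b, hy, g, hg⟩
      refine hiso ⟨y, b, hy, fun n => ?_⟩
      rw [← hg, coeff_map]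
      exact mem_algebraicClosure_iff.mp (g.coeff n).2) s hs
    have h2 : 2 * (d ^ 3 * (Q.lossT.toNat + s)) + 1 = 2 * (Q.lossT.toNat + s) * d ^ 3 + 1 := by ring
    rw [h2] at h1
    exact h1

end Pool.Agent.W277.UF
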